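import Mathlib

/-!
Towers of central projections and covering numbers: definitions used in the statement.
-/

open Filter

namespace Pool.Agent.Helper40.FR

universe u

/-- the set `S` is covered by at most `d` closed balls of radius `ε` -/
def CoveredBy {E : Type u} [NormedAddCommGroup E] (S : Set E) (ε : ℝ) (d : ℕ) : Prop :=
  ∃ t : Finset E, t.card ≤ d ∧ ∀ s ∈ S, ∃ w ∈ t, ‖s - w‖ ≤ ε

/-- the projections `p k` are the bases of refining periodic towers of heights `m k` for `α`:
`m k` divides `m (k + 1)`, `m k → ∞`, `p (k + 1) ≤ p k`, `α^(m k) (p k) = p k` and the sum of the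
`α^i (p k)`, `i < m k`, is one -/
def IsTower {A : Type u} [CStarAlgebra A] (α : A → A) (m : ℕ → ℕ) (p : ℕ → A) : Prop :=
  Tendsto m atTop atTop ∧ ∀ k, 1 ≤ m k ∧ m k ∣ m (k + 1) ∧ IsStarProjection (p k) ∧
    p (k + 1) * p k = p (k + 1) ∧ α^[m k] (p k) = p k ∧
    ∑ i ∈ Finset.range (m k), α^[i] (p k) = 1

/-- `u` has towers of bounded complexity: there are towers which commute with the orbit of `u`, such
that for every `ε > 0` there is `d` such that for infinitely many `k` the elements
`p_k α^i(u)`, `0 ≤ i < m k`, are contained in `d` balls of radius `ε` -/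
def HasTowers {A : Type u} [CStarAlgebra A] (α : A → A) (u : A) : Prop :=
  ∃ (m : ℕ → ℕ) (p : ℕ → A), IsTower α m p ∧ (∀ k i j, Commute (α^[i] (p k)) (α^[j] u)) ∧
    ∀ ε : ℝ, 0 < ε → ∃ d : ℕ, ∃ᶠ k : ℕ in atTop, CoveredBy {x | ∃ i < m k, x = p k * α^[i] u} ε d

end Pool.Agent.Helper40.FR
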