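import Pool.Agent.Helper13.FR.Stmts
import Pool.Agent.Helper40.FR.Defs

/-!
Projections with sum one, nets.
-/

set_option autoImplicit false

open Finset Filter

namespace Pool.Agent.Helper40.FR

universe u

/-- commuting projections with sum one: the norm is the maximum of the norms of the corners -/
theorem ncv_norm {A : Type u} [CStarAlgebra A] (H : ℕ) (q : ℕ → A) (y : A) (M : ℝ)
    (hq : ∀ a ∈ range H, IsStarProjection (q a)) (hc : ∀ a ∈ range H, Commute (q a) y)
    (hs : ∑ a ∈ range H, q a = 1) (hM : 0 ≤ M) (h : ∀ a ∈ range H, ‖q a * y‖ ≤ M) : ‖y‖ ≤ M := by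
  letI := CStarAlgebra.spectralOrder A
  letI := CStarAlgebra.spectralOrderedRing A
  have hc' : ∀ a ∈ range H, Commute (q a) (star y) := by
    intro a ha
    have h1 := congrArg star (hc a ha).eq
    rw [star_mul, star_mul, (hq a ha).isSelfAdjoint.star_eq] at h1
    exact h1.symm
  have key : ∀ a ∈ range H, q a * (star y * y) ≤ (M ^ 2 : ℝ) • q a := by
    intro a ha
    have hqa := (hq a ha).isIdempotentElem.eq
    have hsa := (hq a ha).isSelfAdjoint.star_eq
    have h1 : star (q a * y) * (q a * y) = q a * (star y * y) := by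
      rw [star_mul, hsa]
      calc star y * q a * (q a * y) = star y * (q a * q a) * y := by noncomm_ring
        _ = (star y * q a) * y := by rw [hqa]
        _ = (q a * star y) * y := by rw [(hc' a ha).eq]
        _ = q a * (star y * y) := by rw [mul_assoc]
    have h2 : 0 ≤ star (q a * y) * (q a * y) := star_mul_self_nonneg _
    have h3 : ‖star (q a * y) * (q a * y)‖ ≤ M ^ 2 := by
      rw [CStarRing.norm_star_mul_self, sq]
      exact mul_self_le_mul_self (norm_nonneg _) (h a ha)
    have h4 : star (q a * y) * (q a * y) ≤ algebraMap ℝ A (M ^ 2) :=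
      (CStarAlgebra.norm_le_iff_le_algebraMap _ (by positivity) h2).1 h3
    have h5 := star_left_conjugate_le_conjugate h4 (q a)
    have h6 : star (q a) * (star (q a * y) * (q a * y)) * q a = q a * (star y * y) := by
      rw [h1, hsa, ← mul_assoc, hqa]
      have h7 : Commute (q a) (star y * y) := (hc' a ha).mul_right (hc a ha)
      calc q a * (star y * y) * q a = q a * (star y * y * q a) := by rw [mul_assoc]
        _ = q a * (q a * (star y * y)) := by rw [h7.eq]
        _ = q a * (star y * y) := by rw [← mul_assoc, hqa]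
    have h8 : star (q a) * algebraMap ℝ A (M ^ 2) * q a = (M ^ 2 : ℝ) • q a := by
      rw [hsa, Algebra.algebraMap_eq_smul_one, mul_smul_comm, mul_one, smul_mul_assoc, hqa]
    rw [h6, h8] at h5
    exact h5
  have h9 : star y * y ≤ algebraMap ℝ A (M ^ 2) := by
    calc star y * y = ∑ a ∈ range H, q a * (star y * y) := by rw [← Finset.sum_mul, hs, one_mul]
      _ ≤ ∑ a ∈ range H, (M ^ 2 : ℝ) • q a := Finset.sum_le_sum key
      _ = algebraMap ℝ A (M ^ 2) := by
        rw [← Finset.smul_sum, hs, Algebra.algebraMap_eq_smul_one]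
  have h10 : ‖star y * y‖ ≤ M ^ 2 :=
    (CStarAlgebra.norm_le_iff_le_algebraMap _ (by positivity) (star_mul_self_nonneg _)).2 h9
  rw [CStarRing.norm_star_mul_self, ← sq] at h10
  exact le_of_sq_le_sq h10 hM

/-- from a net to representatives -/
theorem ncv_rep {E : Type u} [NormedAddCommGroup E] (f : ℕ → E) (m d : ℕ) (ε : ℝ) (hm : 1 ≤ m)
    (h : CoveredBy {x | ∃ i < m, x = f i} ε d) : ∃ σ rep : ℕ → ℕ, (∀ i < m, σ i < d) ∧
      (∀ s, rep s < m) ∧ ∀ i < m, ‖f i - f (rep (σ i))‖ ≤ 2 * ε := by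
  classical
  obtain ⟨t, ht, hcov⟩ := h
  have h1 : ∀ i : ℕ, ∃ w : E, i < m → w ∈ t ∧ ‖f i - w‖ ≤ ε := by
    intro i
    by_cases hi : i < m
    · obtain ⟨w, hw, hw'⟩ := hcov (f i) ⟨i, hi, rfl⟩
      exact ⟨w, fun _ => ⟨hw, hw'⟩⟩
    · exact ⟨0, fun h => absurd h hi⟩
  choose w hw using h1
  have e := t.equivFin
  refine ⟨fun i => if hi : w i ∈ t then (e ⟨w i, hi⟩ : ℕ) else 0,
    fun s => if hs : ∃ i, i < m ∧ ∃ hi : w i ∈ t, (e ⟨w i, hi⟩ : ℕ) = s then hs.choose else 0,
    ?_, ?_, ?_⟩
  · intro i hi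
    have := (hw i hi).1
    simp only [this, dif_pos]
    exact lt_of_lt_of_le (e ⟨w i, this⟩).2 ht
  · intro s
    dsimp only
    split_ifs with hs
    · exact hs.choose_spec.1
    · omega
  · intro i hi
    have hwi := (hw i hi).1
    have hs : ∃ i', i' < m ∧ ∃ hi' : w i' ∈ t, (e ⟨w i', hi'⟩ : ℕ) = (e ⟨w i, hwi⟩ : ℕ) :=
      ⟨i, hi, hwi, rfl⟩
    simp only [hwi, dif_pos]
    rw [dif_pos hs]
    obtain ⟨h1, h2, h3⟩ := hs.choose_spec
    have h4 : w hs.choose = w i := by
      have h5 := e.injective (Fin.ext h3)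
      exact congrArg Subtype.val h5
    have h6 := (hw _ h1).2
    rw [h4] at h6
    calc ‖f i - f hs.choose‖ = ‖(f i - w i) - (f hs.choose - w i)‖ := by congr 1; abel
      _ ≤ ‖f i - w i‖ + ‖f hs.choose - w i‖ := norm_sub_le _ _
      _ ≤ ε + ε := add_le_add (hw i hi).2 h6
      _ = 2 * ε := by ring

end Pool.Agent.Helper40.FR
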