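import Pool.Agent.Helper40.FR.NCVa

/-!
The sums along a tower.
-/

set_option autoImplicit false

open Finset Filter

namespace Pool.Agent.Helper40.FR

universe u

open Pool.Agent.Helper13.FR (BS ST_UNI)

theorem ncv_vec {F : Type u} [NormedAddCommGroup F] [NormedSpace ℂ F] (n Λ a N : ℕ)
    (φ G : ℕ → ℂ) (ω : ℕ → F) (B : ℝ) (hB : ∀ t, ‖ω t‖ ≤ B) :
    ‖∑ x ∈ Icc 1 N, (((ArithmeticFunction.moebius x : ℤ) : ℂ) * (φ x * G ((x + a) / n))) •
      ω ((x + a) / (n * Λ))‖ ≤ B * BS n Λ a φ G N := by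
  have h1 : ∑ x ∈ Icc 1 N, (((ArithmeticFunction.moebius x : ℤ) : ℂ) * (φ x * G ((x + a) / n))) •
      ω ((x + a) / (n * Λ)) = ∑ t ∈ range (N + a + 1),
      (∑ x ∈ (Icc 1 N).filter (fun x => (x + a) / (n * Λ) = t),
        ((ArithmeticFunction.moebius x : ℤ) : ℂ) * (φ x * G ((x + a) / n))) • ω t := by
    rw [← Finset.sum_fiberwise_of_maps_to (s := Icc 1 N) (t := range (N + a + 1))
      (g := fun x => (x + a) / (n * Λ))]
    · refine Finset.sum_congr rfl fun t _ => ?_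
      rw [Finset.sum_smul]
      refine Finset.sum_congr rfl fun x hx => ?_
      rw [(Finset.mem_filter.1 hx).2]
    · intro x hx
      have h2 : (x + a) / (n * Λ) ≤ x + a := Nat.div_le_self _ _
      have h3 := (Finset.mem_Icc.1 hx).2
      exact Finset.mem_range.2 (by omega)
  rw [h1, BS, Finset.mul_sum]
  refine (norm_sum_le _ _).trans (Finset.sum_le_sum fun t _ => ?_)
  rw [norm_smul, mul_comm]
  exact mul_le_mul_of_nonneg_right (hB t) (norm_nonneg _)

variable {A : Type u} [CStarAlgebra A]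

theorem ncv_itn (α : A →⋆ₐ[ℂ] A) (n : ℕ) (x : A) : ‖α^[n] x‖ ≤ ‖x‖ := by
  induction n with
  | zero => simp
  | succ n ih =>
    rw [Function.iterate_succ', Function.comp_apply]
    exact (NonUnitalStarAlgHom.norm_apply_le α _).trans ih

theorem ncv_itm (α : A →⋆ₐ[ℂ] A) (n : ℕ) (x y : A) : α^[n] (x * y) = α^[n] x * α^[n] y := by
  induction n with
  | zero => rfl
  | succ n ih => rw [Function.iterate_succ', Function.comp_apply, ih, map_mul]; rfl

theorem ncv_its (α : A →⋆ₐ[ℂ] A) (n : ℕ) (x y : A) : α^[n] (x - y) = α^[n] x - α^[n] y := by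
  induction n with
  | zero => rfl
  | succ n ih => rw [Function.iterate_succ', Function.comp_apply, ih, map_sub]; rfl

theorem ncv_itadd (α : A →⋆ₐ[ℂ] A) (n : ℕ) (x y : A) : α^[n] (x + y) = α^[n] x + α^[n] y := by
  induction n with
  | zero => rfl
  | succ n ih => rw [Function.iterate_succ', Function.comp_apply, ih, map_add]; rfl

theorem ncv_itsmul (α : A →⋆ₐ[ℂ] A) (n : ℕ) (c : ℂ) (x : A) : α^[n] (c • x) = c • α^[n] x := by
  induction n with
  | zero => rfl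
  | succ n ih => rw [Function.iterate_succ', Function.comp_apply, ih, map_smul]; rfl

theorem ncv_proj_le {q : A} (hq : IsStarProjection q) : ‖q‖ ≤ 1 := by
  have h1 : ‖q‖ * ‖q‖ = ‖q‖ := by
    calc ‖q‖ * ‖q‖ = ‖star q * q‖ := (CStarRing.norm_star_mul_self).symm
      _ = ‖q‖ := by rw [hq.isSelfAdjoint.star_eq, hq.isIdempotentElem.eq]
  rcases (norm_nonneg q).eq_or_lt with h | h
  · rw [← h]; exact zero_le_one
  · exact le_of_eq (mul_left_cancel₀ h.ne' (by rw [h1, mul_one]))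

theorem ncv_per (α : A →⋆ₐ[ℂ] A) (n : ℕ) (p : A) (hp : α^[n] p = p) (t : ℕ) :
    α^[n * t] p = p := by
  rw [Function.iterate_mul]
  exact Function.iterate_fixed hp t

/-- replacing `α^j u` by one of finitely many elements -/
theorem ncv_rpl (α : A →⋆ₐ[ℂ] A) (n Λ : ℕ) (p q u : A) (ε : ℝ) (hn : 1 ≤ n)
    (hq1 : IsStarProjection q) (hqp : q * p = q) (hp : α^[n] p = p)
    (σ rep τ rep' : ℕ → ℕ) (hr : ∀ s, rep s < n)
    (hσ : ∀ i < n, ‖p * α^[i] u - p * α^[rep (σ i)] u‖ ≤ 2 * ε)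
    (hτ : ∀ i < n * Λ, ‖q * α^[i] u - q * α^[rep' (τ i)] u‖ ≤ 2 * ε) (j : ℕ) (hj : j < n * Λ) :
    ‖q * α^[j] u - q * α^[rep' (τ (n * (j / n) + rep (σ (j % n))))] u‖ ≤ 4 * ε := by
  have hqn := ncv_proj_le hq1
  have hjn : j / n < Λ := Nat.div_lt_of_lt_mul hj
  have hl : j % n < n := Nat.mod_lt _ (by omega)
  have e1 : ∀ i : ℕ, q * α^[n * (j / n) + i] u = q * α^[n * (j / n)] (p * α^[i] u) := by
    intro i
    rw [ncv_itm, ncv_per α n p hp, ← mul_assoc, hqp, Function.iterate_add_apply]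
  have e2 : q * α^[j] u = q * α^[n * (j / n)] (p * α^[j % n] u) := by
    rw [← e1, Nat.div_add_mod]
  have h1 : ‖q * α^[j] u - q * α^[n * (j / n) + rep (σ (j % n))] u‖ ≤ 2 * ε := by
    rw [e2, e1, ← mul_sub, ← ncv_its]
    have h2 := hσ _ hl
    calc ‖q * α^[n * (j / n)] (p * α^[j % n] u - p * α^[rep (σ (j % n))] u)‖
        ≤ ‖q‖ * ‖α^[n * (j / n)] (p * α^[j % n] u - p * α^[rep (σ (j % n))] u)‖ := norm_mul_le _ _
      _ ≤ 1 * ‖p * α^[j % n] u - p * α^[rep (σ (j % n))] u‖ :=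
          mul_le_mul hqn (ncv_itn _ _ _) (norm_nonneg _) zero_le_one
      _ ≤ 2 * ε := by rw [one_mul]; exact h2
  have hlt : n * (j / n) + rep (σ (j % n)) < n * Λ := by
    have h3 := hr (σ (j % n))
    calc n * (j / n) + rep (σ (j % n)) < n * (j / n) + n := by omega
      _ = n * (j / n + 1) := by ring
      _ ≤ n * Λ := Nat.mul_le_mul_left _ hjn
  have h4 := hτ _ hlt
  calc _ = ‖(q * α^[j] u - q * α^[n * (j / n) + rep (σ (j % n))] u) +
        (q * α^[n * (j / n) + rep (σ (j % n))] u -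
          q * α^[rep' (τ (n * (j / n) + rep (σ (j % n))))] u)‖ := by congr 1; abel
    _ ≤ 2 * ε + 2 * ε := (norm_add_le _ _).trans (add_le_add h1 h4)
    _ = 4 * ε := by ring

theorem ncv_corner (α : A →⋆ₐ[ℂ] A) (n Λ : ℕ) (p q u : A) (ε : ℝ) (hn : 1 ≤ n) (hΛ : 1 ≤ Λ)
    (hq1 : IsStarProjection q) (hqp : q * p = q) (hp : α^[n] p = p) (hq : α^[n * Λ] q = q)
    (σ rep τ rep' : ℕ → ℕ) (hr : ∀ s, rep s < n)
    (hσ : ∀ i < n, ‖p * α^[i] u - p * α^[rep (σ i)] u‖ ≤ 2 * ε)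
    (hτ : ∀ i < n * Λ, ‖q * α^[i] u - q * α^[rep' (τ i)] u‖ ≤ 2 * ε)
    (r t l y : ℕ) (hl : l < n) (hy : y < Λ) :
    ‖α^[r] q * α^[r + (n * Λ * t + (n * y + l))] u -
      α^[r + n * Λ * t] (q * α^[rep' (τ (n * y + rep (σ l)))] u)‖ ≤ 4 * ε := by
  have hj : n * y + l < n * Λ := by
    calc n * y + l < n * y + n := by omega
      _ = n * (y + 1) := by ring
      _ ≤ n * Λ := Nat.mul_le_mul_left _ hy
  have hd : (n * y + l) / n = y := by
    rw [Nat.mul_add_div (by omega), Nat.div_eq_of_lt hl, add_zero]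
  have hm : (n * y + l) % n = l := by
    rw [Nat.mul_add_mod, Nat.mod_eq_of_lt hl]
  have h1 := ncv_rpl α n Λ p q u ε hn hq1 hqp hp σ rep τ rep' hr hσ hτ (n * y + l) hj
  rw [hd, hm] at h1
  have h2 : α^[r] q = α^[r + n * Λ * t] q := by
    rw [Function.iterate_add_apply, ncv_per α (n * Λ) q hq]
  have h3 : α^[r + (n * Λ * t + (n * y + l))] u = α^[r + n * Λ * t] (α^[n * y + l] u) := by
    rw [← Function.iterate_add_apply, add_assoc]
  rw [h2, h3, ← ncv_itm, ← ncv_its]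
  exact (ncv_itn _ _ _).trans h1

end Pool.Agent.Helper40.FR
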