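import Pool.Agent.Helper40.FR.NCVb

/-!
The theorem on towers.
-/

set_option autoImplicit false

open Finset Filter

namespace Pool.Agent.Helper40.FR

universe u

open Pool.Agent.Helper13.FR (BS ST_UNI)

variable {A : Type u} [CStarAlgebra A]

/-- the Moebius sums of `u` -/
noncomputable def ncvY (α : A →⋆ₐ[ℂ] A) (z : ℂ) (u : A) (N : ℕ) : A :=
  ∑ x ∈ Icc 1 N, (((ArithmeticFunction.moebius x : ℤ) : ℂ) * z ^ x) • α^[x] u

theorem ncv_mu (x : ℕ) : ‖((ArithmeticFunction.moebius x : ℤ) : ℂ)‖ ≤ 1 := by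
  rw [Complex.norm_intCast]
  exact_mod_cast ArithmeticFunction.abs_moebius_le_one

/-- the periodic functions -/
noncomputable def ncvφ (n a : ℕ) (z : ℂ) (σ : ℕ → ℕ) (s x : ℕ) : ℂ :=
  if σ ((x + a) % n) = s then z ^ ((x + a) % n) else 0

noncomputable def ncvG (n Λ : ℕ) (z : ℂ) (rep τ : ℕ → ℕ) (s c y : ℕ) : ℂ :=
  if τ (n * (y % Λ) + rep s) = c then z ^ (n * (y % Λ)) else 0

noncomputable def ncvω (α : A →⋆ₐ[ℂ] A) (n Λ r : ℕ) (z : ℂ) (q u : A) (rep' : ℕ → ℕ)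
    (c t : ℕ) : A :=
  if t = 0 then 0 else z ^ (r + n * Λ * (t - 1)) • α^[r + n * Λ * (t - 1)] (q * α^[rep' c] u)

theorem ncv_main (α : A →⋆ₐ[ℂ] A) (n Λ d : ℕ) (z : ℂ) (q u : A) (hn : 1 ≤ n)
    (σ rep τ rep' : ℕ → ℕ) (hr : ∀ s, rep s < n) (hσd : ∀ i < n, σ i < d)
    (hτd : ∀ i < n * Λ, τ i < d)
    (r t l y x : ℕ) (hl : l < n) (hy : y < Λ) (hrn : r < n * Λ)
    (hx : x = r + (n * Λ * t + (n * y + l))) :
    ∑ s ∈ range d, ∑ c ∈ range d,
      (ncvφ n (n * Λ - r) z σ s x * ncvG n Λ z rep τ s c ((x + (n * Λ - r)) / n)) •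
        ncvω α n Λ r z q u rep' c ((x + (n * Λ - r)) / (n * Λ)) =
    z ^ x • α^[r + n * Λ * t] (q * α^[rep' (τ (n * y + rep (σ l)))] u) := by
  have hΛ : 0 < Λ := by omega
  have hX : x + (n * Λ - r) = n * (Λ * (t + 1) + y) + l := by
    have : n * (Λ * (t + 1) + y) + l = n * Λ * t + (n * y + l) + n * Λ := by ring
    omega
  have h1 : (x + (n * Λ - r)) % n = l := by rw [hX, Nat.mul_add_mod, Nat.mod_eq_of_lt hl]
  have h2 : (x + (n * Λ - r)) / n = Λ * (t + 1) + y := by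
    rw [hX, Nat.mul_add_div (by omega), Nat.div_eq_of_lt hl, add_zero]
  have h3 : (x + (n * Λ - r)) / (n * Λ) = t + 1 := by
    rw [← Nat.div_div_eq_div_mul, h2, Nat.mul_add_div hΛ, Nat.div_eq_of_lt hy, add_zero]
  have h4 : (Λ * (t + 1) + y) % Λ = y := by rw [Nat.mul_add_mod, Nat.mod_eq_of_lt hy]
  have h5 : n * y + rep (σ l) < n * Λ := by
    have := hr (σ l)
    calc n * y + rep (σ l) < n * y + n := by omega
      _ = n * (y + 1) := by ring
      _ ≤ n * Λ := Nat.mul_le_mul_left _ hy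
  simp only [ncvφ, ncvG, ncvω, h1, h2, h3, h4]
  rw [Finset.sum_eq_single (σ l)]
  · rw [Finset.sum_eq_single (τ (n * y + rep (σ l)))]
    · simp only [if_true, Nat.add_one_ne_zero, if_false, Nat.add_sub_cancel]
      rw [smul_smul]
      congr 1
      rw [hx]
      ring
    · intro c _ hc
      rw [if_neg (Ne.symm hc), mul_zero, zero_smul]
    · intro h
      exact absurd (Finset.mem_range.2 (hτd _ h5)) h
  · intro s _ hs
    rw [if_neg (Ne.symm hs)]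
    simp
  · intro h
    exact absurd (Finset.mem_range.2 (hσd _ hl)) h

theorem ncv_ωn (α : A →⋆ₐ[ℂ] A) (n Λ r : ℕ) (z : ℂ) (hz : ‖z‖ = 1) (q u : A)
    (hq : IsStarProjection q) (rep' : ℕ → ℕ) (c t : ℕ) : ‖ncvω α n Λ r z q u rep' c t‖ ≤ ‖u‖ := by
  unfold ncvω
  split_ifs
  · rw [norm_zero]; exact norm_nonneg _
  · rw [norm_smul, norm_pow, hz, one_pow, one_mul]
    refine (ncv_itn _ _ _).trans ((norm_mul_le _ _).trans ?_)
    calc ‖q‖ * ‖α^[rep' c] u‖ ≤ 1 * ‖u‖ :=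
          mul_le_mul (ncv_proj_le hq) (ncv_itn _ _ _) (norm_nonneg _) zero_le_one
      _ = ‖u‖ := one_mul _

/-- the corner of the sum -/
theorem ncv_cs (α : A →⋆ₐ[ℂ] A) (n Λ d : ℕ) (z : ℂ) (hz : ‖z‖ = 1) (p q u : A) (ε : ℝ)
    (hn : 1 ≤ n) (hΛ : 1 ≤ Λ) (hε : 0 ≤ ε)
    (hq1 : IsStarProjection q) (hqp : q * p = q) (hp : α^[n] p = p) (hq : α^[n * Λ] q = q)
    (σ rep τ rep' : ℕ → ℕ) (hr : ∀ s, rep s < n) (hσd : ∀ i < n, σ i < d)
    (hτd : ∀ i < n * Λ, τ i < d)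
    (hσ : ∀ i < n, ‖p * α^[i] u - p * α^[rep (σ i)] u‖ ≤ 2 * ε)
    (hτ : ∀ i < n * Λ, ‖q * α^[i] u - q * α^[rep' (τ i)] u‖ ≤ 2 * ε)
    (r : ℕ) (hrn : r < n * Λ) (N : ℕ) :
    ‖α^[r] q * ncvY α z u N‖ ≤ 4 * ε * N + n * Λ * ‖u‖ +
      ∑ s ∈ range d, ∑ c ∈ range d, ‖u‖ * BS n Λ (n * Λ - r) (ncvφ n (n * Λ - r) z σ s)
        (ncvG n Λ z rep τ s c) N := by
  set a := n * Λ - r with ha
  have hαq : ‖α^[r] q‖ ≤ 1 := (ncv_itn _ _ _).trans (ncv_proj_le hq1)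
  have h1 : ∀ x : ℕ, ‖(((ArithmeticFunction.moebius x : ℤ) : ℂ) * z ^ x) •
      (α^[r] q * α^[x] u) - ((ArithmeticFunction.moebius x : ℤ) : ℂ) •
      ∑ s ∈ range d, ∑ c ∈ range d, (ncvφ n a z σ s x * ncvG n Λ z rep τ s c ((x + a) / n)) •
        ncvω α n Λ r z q u rep' c ((x + a) / (n * Λ))‖ ≤
      4 * ε + if x < r then ‖u‖ else 0 := by
    intro x
    rw [← smul_smul, ← smul_sub, norm_smul]
    refine (mul_le_of_le_one_left (norm_nonneg _) (ncv_mu x)).trans ?_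
    by_cases hxr : x < r
    · have h2 : (x + a) / (n * Λ) = 0 := Nat.div_eq_of_lt (by omega)
      rw [if_pos hxr]
      have h3 : ∑ s ∈ range d, ∑ c ∈ range d,
          (ncvφ n a z σ s x * ncvG n Λ z rep τ s c ((x + a) / n)) •
          ncvω α n Λ r z q u rep' c ((x + a) / (n * Λ)) = 0 := by
        rw [h2]
        simp [ncvω]
      rw [h3, sub_zero, norm_smul, norm_pow, hz, one_pow, one_mul]
      have h4 : ‖α^[r] q * α^[x] u‖ ≤ 1 * ‖u‖ :=
        (norm_mul_le _ _).trans (mul_le_mul hαq (ncv_itn _ _ _) (norm_nonneg _) zero_le_one)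
      linarith
    · rw [if_neg hxr, add_zero]
      have hxe : x = r + (n * Λ * ((x - r) / (n * Λ)) +
          (n * ((x - r) % (n * Λ) / n) + (x - r) % (n * Λ) % n)) := by
        rw [Nat.div_add_mod, Nat.div_add_mod]
        omega
      have hl : (x - r) % (n * Λ) % n < n := Nat.mod_lt _ (by omega)
      have hy : (x - r) % (n * Λ) / n < Λ :=
        Nat.div_lt_of_lt_mul (Nat.mod_lt _ (by omega))
      rw [ncv_main α n Λ d z q u hn σ rep τ rep' hr hσd hτd r _ _ _ x hl hy hrn hxe, ← smul_sub,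
        norm_smul, norm_pow, hz, one_pow, one_mul]
      have h5 := ncv_corner α n Λ p q u ε hn hΛ hq1 hqp hp hq σ rep τ rep' hr hσ hτ r
        ((x - r) / (n * Λ)) _ _ hl hy
      rw [← hxe] at h5
      exact h5
  have h6 : α^[r] q * ncvY α z u N = ∑ x ∈ Icc 1 N,
      (((ArithmeticFunction.moebius x : ℤ) : ℂ) * z ^ x) • (α^[r] q * α^[x] u) := by
    rw [ncvY, Finset.mul_sum]
    exact Finset.sum_congr rfl fun x _ => mul_smul_comm _ _ _
  have h7 : ∑ x ∈ Icc 1 N, ((ArithmeticFunction.moebius x : ℤ) : ℂ) •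
      ∑ s ∈ range d, ∑ c ∈ range d, (ncvφ n a z σ s x * ncvG n Λ z rep τ s c ((x + a) / n)) •
        ncvω α n Λ r z q u rep' c ((x + a) / (n * Λ)) =
      ∑ s ∈ range d, ∑ c ∈ range d, ∑ x ∈ Icc 1 N,
        (((ArithmeticFunction.moebius x : ℤ) : ℂ) *
          (ncvφ n a z σ s x * ncvG n Λ z rep τ s c ((x + a) / n))) •
        ncvω α n Λ r z q u rep' c ((x + a) / (n * Λ)) := by
    have h71 : ∀ x ∈ Icc 1 N, ((ArithmeticFunction.moebius x : ℤ) : ℂ) •
        ∑ s ∈ range d, ∑ c ∈ range d, (ncvφ n a z σ s x * ncvG n Λ z rep τ s c ((x + a) / n)) •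
        ncvω α n Λ r z q u rep' c ((x + a) / (n * Λ)) = ∑ s ∈ range d, ∑ c ∈ range d,
        (((ArithmeticFunction.moebius x : ℤ) : ℂ) *
          (ncvφ n a z σ s x * ncvG n Λ z rep τ s c ((x + a) / n))) •
        ncvω α n Λ r z q u rep' c ((x + a) / (n * Λ)) := by
      intro x _
      rw [Finset.smul_sum]
      refine Finset.sum_congr rfl fun s _ => ?_
      rw [Finset.smul_sum]
      exact Finset.sum_congr rfl fun c _ => smul_smul _ _ _
    rw [Finset.sum_congr rfl h71, Finset.sum_comm]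
    exact Finset.sum_congr rfl fun s _ => Finset.sum_comm
  have h8 : ‖∑ s ∈ range d, ∑ c ∈ range d, ∑ x ∈ Icc 1 N,
        (((ArithmeticFunction.moebius x : ℤ) : ℂ) *
          (ncvφ n a z σ s x * ncvG n Λ z rep τ s c ((x + a) / n))) •
        ncvω α n Λ r z q u rep' c ((x + a) / (n * Λ))‖ ≤ ∑ s ∈ range d, ∑ c ∈ range d,
      ‖u‖ * BS n Λ a (ncvφ n a z σ s) (ncvG n Λ z rep τ s c) N := by
    refine (norm_sum_le _ _).trans (Finset.sum_le_sum fun s _ => ?_)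
    refine (norm_sum_le _ _).trans (Finset.sum_le_sum fun c _ => ?_)
    exact ncv_vec n Λ a N _ _ _ ‖u‖ (ncv_ωn α n Λ r z hz q u hq1 rep' c)
  have h9 : ‖∑ x ∈ Icc 1 N, ((((ArithmeticFunction.moebius x : ℤ) : ℂ) * z ^ x) •
      (α^[r] q * α^[x] u) - ((ArithmeticFunction.moebius x : ℤ) : ℂ) •
      ∑ s ∈ range d, ∑ c ∈ range d, (ncvφ n a z σ s x * ncvG n Λ z rep τ s c ((x + a) / n)) •
        ncvω α n Λ r z q u rep' c ((x + a) / (n * Λ)))‖ ≤ 4 * ε * N + n * Λ * ‖u‖ := by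
    refine (norm_sum_le _ _).trans ((Finset.sum_le_sum fun x _ => h1 x).trans ?_)
    rw [Finset.sum_add_distrib, Finset.sum_const, Nat.card_Icc, Nat.add_sub_cancel, nsmul_eq_mul]
    have h10 : ∑ x ∈ Icc 1 N, (if x < r then ‖u‖ else 0) ≤ n * Λ * ‖u‖ := by
      rw [← Finset.sum_filter, Finset.sum_const, nsmul_eq_mul]
      have h11 : ((Icc 1 N).filter fun x => x < r).card ≤ n * Λ := by
        calc ((Icc 1 N).filter fun x => x < r).card ≤ (range r).card :=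
              Finset.card_le_card fun x hx =>
                Finset.mem_range.2 (Finset.mem_filter.1 hx).2
          _ ≤ n * Λ := by rw [Finset.card_range]; exact hrn.le
      have h12 : (((Icc 1 N).filter fun x => x < r).card : ℝ) ≤ n * Λ := by exact_mod_cast h11
      exact mul_le_mul_of_nonneg_right h12 (norm_nonneg _)
    linarith
  rw [Finset.sum_sub_distrib, ← h6, h7] at h9
  have h13 := norm_sub_norm_le (α^[r] q * ncvY α z u N) (∑ s ∈ range d, ∑ c ∈ range d,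
    ∑ x ∈ Icc 1 N, (((ArithmeticFunction.moebius x : ℤ) : ℂ) *
          (ncvφ n a z σ s x * ncvG n Λ z rep τ s c ((x + a) / n))) •
        ncvω α n Λ r z q u rep' c ((x + a) / (n * Λ)))
  linarith

end Pool.Agent.Helper40.FR
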