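import Pool.Agent.Helper40.FR.NCVc

/-!
The theorem on towers: end of the proof.
-/

set_option autoImplicit false

open Finset Filter

namespace Pool.Agent.Helper40.FR

universe u

open Pool.Agent.Helper13.FR (BS ST_UNF)

variable {A : Type u} [CStarAlgebra A]

theorem ncv_tower_mono (α : A → A) (m : ℕ → ℕ) (p : ℕ → A) (h : IsTower α m p) (k j : ℕ) :
    m k ∣ m (k + j) ∧ p (k + j) * p k = p (k + j) := by
  induction j with
  | zero =>
    refine ⟨dvd_refl _, ?_⟩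
    exact (h.2 k).2.2.1.isIdempotentElem.eq
  | succ j ih =>
    obtain ⟨h1, h2⟩ := ih
    obtain ⟨-, h3, -, h4, -, -⟩ := h.2 (k + j)
    refine ⟨h1.trans h3, ?_⟩
    rw [← add_assoc]
    calc p (k + j + 1) * p k = p (k + j + 1) * p (k + j) * p k := by rw [h4]
      _ = p (k + j + 1) * (p (k + j) * p k) := mul_assoc _ _ _
      _ = p (k + j + 1) := by rw [h2, h4]

theorem ncv_perφ (n a : ℕ) (z : ℂ) (σ : ℕ → ℕ) (s x : ℕ) :
    ncvφ n a z σ s (x + n) = ncvφ n a z σ s x := by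
  unfold ncvφ
  rw [show x + n + a = x + a + n by ring, Nat.add_mod_right]

theorem ncv_perG (n Λ : ℕ) (z : ℂ) (rep τ : ℕ → ℕ) (s c y : ℕ) :
    ncvG n Λ z rep τ s c (y + Λ) = ncvG n Λ z rep τ s c y := by
  unfold ncvG
  rw [Nat.add_mod_right]

theorem ncv_nφ (n a : ℕ) (z : ℂ) (hz : ‖z‖ = 1) (σ : ℕ → ℕ) (s x : ℕ) :
    ‖ncvφ n a z σ s x‖ ≤ 1 := by
  unfold ncvφ
  split_ifs
  · rw [norm_pow, hz, one_pow]
  · rw [norm_zero]; exact zero_le_one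

theorem ncv_nG (n Λ : ℕ) (z : ℂ) (hz : ‖z‖ = 1) (rep τ : ℕ → ℕ) (s c y : ℕ) :
    ‖ncvG n Λ z rep τ s c y‖ ≤ 1 := by
  unfold ncvG
  split_ifs
  · rw [norm_pow, hz, one_pow]
  · rw [norm_zero]; exact zero_le_one

/-- `u` is uniformly Moebius disjoint along `α` -/
def ncvD (α : A →⋆ₐ[ℂ] A) (u : A) : Prop := ∀ ε : ℝ, 0 < ε → ∃ N₀ : ℕ, ∀ N : ℕ, N₀ ≤ N →
  ∀ z : ℂ, ‖z‖ = 1 → ‖ncvY α z u N‖ ≤ ε * N

theorem ncv_tow (hU : ST_UNF) (α : A →⋆ₐ[ℂ] A) (u : A) (hu : HasTowers α u) : ncvD α u := by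
  intro δ hδ
  obtain ⟨m, p, hT, hcomm, hcov⟩ := hu
  obtain ⟨d, hd⟩ := hcov (δ / 16) (by positivity)
  set η : ℝ := δ / (4 * ((d : ℝ) ^ 2 + 1) * (‖u‖ + 1)) with hη
  have hη0 : 0 < η := by positivity
  obtain ⟨n₀, hn₀⟩ := hU η hη0
  obtain ⟨k, ⟨hk1, hk2⟩⟩ := (hd.and_eventually (hT.1.eventually_ge_atTop n₀)).exists
  obtain ⟨Λ₀, hΛ₀⟩ := hn₀ (m k) hk2
  obtain ⟨k', ⟨hk'1, hk'2, hk'3⟩⟩ := (hd.and_eventually
    ((hT.1.eventually_ge_atTop (m k * Λ₀)).and (eventually_ge_atTop k))).exists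
  obtain ⟨j, rfl⟩ := Nat.exists_eq_add_of_le hk'3
  obtain ⟨hdvd, hqp⟩ := ncv_tower_mono α m p hT k j
  obtain ⟨Λ, hΛ⟩ := hdvd
  have hn1 := (hT.2 k).1
  have hm1 := (hT.2 (k + j)).1
  have hΛ1 : 1 ≤ Λ := by
    rcases Nat.eq_zero_or_pos Λ with h | h
    · rw [h, mul_zero] at hΛ; omega
    · exact h
  have hΛ2 : Λ₀ ≤ Λ := by
    rw [hΛ] at hk'2
    exact Nat.le_of_mul_le_mul_left hk'2 hn1
  obtain ⟨N₁, hN₁⟩ := hΛ₀ Λ hΛ2
  obtain ⟨σ, rep, hσd, hr, hσ⟩ := ncv_rep (fun i => p k * α^[i] u) (m k) d (δ / 16) hn1 hk1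
  obtain ⟨τ, rep', hτd, hr', hτ⟩ := ncv_rep (fun i => p (k + j) * α^[i] u) (m (k + j)) d (δ / 16)
    hm1 hk'1
  rw [hΛ] at hτd hτ
  obtain ⟨N₂, hN₂⟩ := exists_nat_ge ((m k : ℝ) * Λ * ‖u‖ / (δ / 4))
  refine ⟨max N₁ N₂, fun N hN z hz => ?_⟩
  have hN1 : N₁ ≤ N := (le_max_left _ _).trans hN
  have hN2 : (m k : ℝ) * Λ * ‖u‖ ≤ δ / 4 * N := by
    rw [div_le_iff₀ (by positivity)] at hN₂
    have h1 : (N₂ : ℝ) ≤ N := by exact_mod_cast (le_max_right _ _).trans hN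
    nlinarith
  have hperp : α^[m k * Λ] (p (k + j)) = p (k + j) := by
    rw [← hΛ]; exact (hT.2 (k + j)).2.2.2.2.1
  have hcor : ∀ r < m k * Λ, ‖α^[r] (p (k + j)) * ncvY α z u N‖ ≤ δ * N := by
    intro r hrn
    have h1 := ncv_cs α (m k) Λ d z hz (p k) (p (k + j)) u (δ / 16) hn1 hΛ1 (by positivity)
      (hT.2 (k + j)).2.2.1 hqp (hT.2 k).2.2.2.2.1 hperp σ rep τ rep' hr hσd hτd hσ hτ r hrn N
    have h2 : ∑ s ∈ range d, ∑ c ∈ range d, ‖u‖ * BS (m k) Λ (m k * Λ - r)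
        (ncvφ (m k) (m k * Λ - r) z σ s) (ncvG (m k) Λ z rep τ s c) N ≤
        ∑ s ∈ range d, ∑ c ∈ range d, ‖u‖ * (η * N) := by
      refine Finset.sum_le_sum fun s _ => Finset.sum_le_sum fun c _ => ?_
      refine mul_le_mul_of_nonneg_left ?_ (norm_nonneg _)
      exact hN₁ N _ _ _ hN1 (fun x => ⟨ncv_nφ _ _ z hz _ _ _, ncv_nG _ _ z hz _ _ _ _ _⟩)
        (fun x => ncv_perφ _ _ _ _ _ _) (fun x => ncv_perG _ _ _ _ _ _ _ _)
    have h3 : ∑ s ∈ range d, ∑ c ∈ range d, ‖u‖ * (η * N) = (d : ℝ) ^ 2 * ‖u‖ * η * N := by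
      simp only [Finset.sum_const, Finset.card_range, nsmul_eq_mul]
      ring
    have h4 : (d : ℝ) ^ 2 * ‖u‖ * η ≤ δ / 4 := by
      rw [hη, ← mul_div_assoc, div_le_div_iff₀ (by positivity) (by norm_num)]
      have h5 : (d : ℝ) ^ 2 * ‖u‖ ≤ ((d : ℝ) ^ 2 + 1) * (‖u‖ + 1) :=
        mul_le_mul (by linarith) (by linarith) (norm_nonneg _) (by positivity)
      nlinarith
    have h6 : (d : ℝ) ^ 2 * ‖u‖ * η * N ≤ δ / 4 * N :=
      mul_le_mul_of_nonneg_right h4 (Nat.cast_nonneg _)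
    rw [h3] at h2
    have h7 : (0 : ℝ) ≤ δ * N := by positivity
    linarith
  have hc1 : ∀ r x : ℕ, Commute (α^[r] (p (k + j))) (α^[x] u) := fun r x => hcomm _ _ _
  refine ncv_norm (m k * Λ) (fun r => α^[r] (p (k + j))) _ _ ?_ ?_ ?_ (by positivity)
    (fun r hr => hcor r (Finset.mem_range.1 hr))
  · intro r _
    have h1 := (hT.2 (k + j)).2.2.1
    refine ⟨?_, ?_⟩
    · show α^[r] (p (k + j)) * α^[r] (p (k + j)) = _
      rw [← ncv_itm, h1.isIdempotentElem.eq]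
    · show star (α^[r] (p (k + j))) = α^[r] (p (k + j))
      have h2 : ∀ r : ℕ, star (α^[r] (p (k + j))) = α^[r] (p (k + j)) := by
        intro r
        induction r with
        | zero => exact h1.isSelfAdjoint.star_eq
        | succ r ih =>
          rw [Function.iterate_succ', Function.comp_apply, ← map_star, ih]
      exact h2 r
  · intro r _
    unfold ncvY
    refine Commute.sum_right _ _ _ fun x _ => ?_
    exact (hc1 r x).smul_right _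
  · rw [← hΛ]
    exact (hT.2 (k + j)).2.2.2.2.2

theorem ncvY_add (α : A →⋆ₐ[ℂ] A) (z : ℂ) (u v : A) (N : ℕ) :
    ncvY α z (u + v) N = ncvY α z u N + ncvY α z v N := by
  unfold ncvY
  rw [← Finset.sum_add_distrib]
  exact Finset.sum_congr rfl fun x _ => by rw [ncv_itadd, smul_add]

theorem ncvY_smul (α : A →⋆ₐ[ℂ] A) (z c : ℂ) (u : A) (N : ℕ) :
    ncvY α z (c • u) N = c • ncvY α z u N := by
  unfold ncvY
  rw [Finset.smul_sum]
  exact Finset.sum_congr rfl fun x _ => by rw [ncv_itsmul, smul_comm]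

theorem ncvY_norm (α : A →⋆ₐ[ℂ] A) (z : ℂ) (hz : ‖z‖ = 1) (u : A) (N : ℕ) :
    ‖ncvY α z u N‖ ≤ ‖u‖ * N := by
  unfold ncvY
  refine (norm_sum_le _ _).trans ?_
  calc _ ≤ ∑ x ∈ Icc 1 N, ‖u‖ := by
        refine Finset.sum_le_sum fun x _ => ?_
        rw [norm_smul, norm_mul, norm_pow, hz, one_pow, mul_one]
        exact (mul_le_of_le_one_left (norm_nonneg _) (ncv_mu x)).trans (ncv_itn _ _ _)
    _ = ‖u‖ * N := by simp [mul_comm]

theorem ncvD_add (α : A →⋆ₐ[ℂ] A) (u v : A) (hu : ncvD α u) (hv : ncvD α v) : ncvD α (u + v) := by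
  intro ε hε
  obtain ⟨N₁, h1⟩ := hu (ε / 2) (by positivity)
  obtain ⟨N₂, h2⟩ := hv (ε / 2) (by positivity)
  refine ⟨max N₁ N₂, fun N hN z hz => ?_⟩
  rw [ncvY_add]
  have h3 := h1 N ((le_max_left _ _).trans hN) z hz
  have h4 := h2 N ((le_max_right _ _).trans hN) z hz
  refine (norm_add_le _ _).trans ?_
  linarith

theorem ncvD_smul (α : A →⋆ₐ[ℂ] A) (c : ℂ) (u : A) (hu : ncvD α u) : ncvD α (c • u) := by
  intro ε hε
  obtain ⟨N₁, h1⟩ := hu (ε / (‖c‖ + 1)) (by positivity)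
  refine ⟨N₁, fun N hN z hz => ?_⟩
  rw [ncvY_smul, norm_smul]
  have h2 := h1 N hN z hz
  calc ‖c‖ * ‖ncvY α z u N‖ ≤ (‖c‖ + 1) * (ε / (‖c‖ + 1) * N) :=
        mul_le_mul (by linarith) h2 (norm_nonneg _) (by positivity)
    _ = ε * N := by field_simp

theorem ncvD_zero (α : A →⋆ₐ[ℂ] A) : ncvD α 0 := by
  intro ε hε
  refine ⟨0, fun N _ z hz => ?_⟩
  have h := ncvY_norm α z hz 0 N
  rw [norm_zero, zero_mul] at h
  exact h.trans (by positivity)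

theorem ncvD_closure (α : A →⋆ₐ[ℂ] A) (S : Set A) (hS : ∀ v ∈ S, ncvD α v) (u : A)
    (hu : u ∈ closure S) : ncvD α u := by
  intro ε hε
  obtain ⟨v, hv, hv'⟩ := Metric.mem_closure_iff.1 hu (ε / 2) (by positivity)
  obtain ⟨N₁, h1⟩ := hS v hv (ε / 2) (by positivity)
  refine ⟨N₁, fun N hN z hz => ?_⟩
  have h2 := h1 N hN z hz
  have h3 : ncvY α z u N = ncvY α z (u - v) N + ncvY α z v N := by
    rw [← ncvY_add]; congr 1; abel
  rw [h3]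
  have h4 := ncvY_norm α z hz (u - v) N
  rw [dist_eq_norm] at hv'
  have h5 : ‖u - v‖ * N ≤ ε / 2 * N := mul_le_mul_of_nonneg_right hv'.le (Nat.cast_nonneg _)
  refine (norm_add_le _ _).trans ?_
  linarith

theorem ncvD_span (α : A →⋆ₐ[ℂ] A) (S : Set A) (hS : ∀ v ∈ S, ncvD α v) (u : A)
    (hu : u ∈ closure (Submodule.span ℂ S : Set A)) : ncvD α u := by
  refine ncvD_closure α _ (fun v hv => ?_) u hu
  refine Submodule.span_induction (p := fun x _ => ncvD α x) hS (ncvD_zero α)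
    (fun x y _ _ hx hy => ncvD_add α x y hx hy) (fun c x _ hx => ncvD_smul α c x hx) hv

end Pool.Agent.Helper40.FR
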