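import Pool.Agent.Helper42.FR.Stmts

/-!
# Row OR: almost orthogonal idempotents with sum `1`
-/

set_option autoImplicit false

namespace Pool.Agent.Helper40.FR.OR

open Matrix Pool.Agent.Helper81.Fmr Pool.Agent.Helper42.FR

universe u

section
variable {F : Type u} [Field F] {b : ℕ}

local notation "Mt" => Matrix (Fin b) (Fin b) F

theorem ra (A B : Mt) : (A + B).rank ≤ A.rank + B.rank := rank_add_le' A B

theorem rn (A : Mt) : (-A).rank ≤ A.rank := by
  have h : -A = A * (-1) := by rw [mul_neg, mul_one]
  rw [h]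
  exact rank_mul_le_left _ _

theorem rs (A B : Mt) : (A - B).rank ≤ A.rank + B.rank := by
  rw [sub_eq_add_neg]
  exact (ra _ _).trans (Nat.add_le_add_left (rn B) _)

/-- Frobenius' inequality -/
theorem frob (X Y Z : Mt) : (X * Y).rank + (Y * Z).rank ≤ Y.rank + (X * Y * Z).rank := by
  have key : ∀ (S : Submodule F (Fin b → F)),
      Module.finrank F (S.map X.mulVecLin) +
        Module.finrank F ((S ⊓ LinearMap.ker X.mulVecLin : Submodule F (Fin b → F))) =
      Module.finrank F S := by
    intro S
    have h := LinearMap.finrank_range_add_finrank_ker (X.mulVecLin.domRestrict S)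
    rw [LinearMap.range_domRestrict, LinearMap.ker_domRestrict] at h
    rw [← h]
    congr 1
    rw [← Submodule.map_comap_subtype, Submodule.finrank_map_subtype_eq]
  have r1 : (X * Y).rank =
      Module.finrank F ((LinearMap.range Y.mulVecLin).map X.mulVecLin) := by
    rw [Matrix.rank, Matrix.mulVecLin_mul, LinearMap.range_comp]
  have r2 : (Y * Z).rank = Module.finrank F (LinearMap.range (Y * Z).mulVecLin) := rfl
  have r3 : (X * Y * Z).rank =
      Module.finrank F ((LinearMap.range (Y * Z).mulVecLin).map X.mulVecLin) := by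
    rw [mul_assoc, Matrix.rank, Matrix.mulVecLin_mul, LinearMap.range_comp]
  have r4 : Y.rank = Module.finrank F (LinearMap.range Y.mulVecLin) := rfl
  have k1 := key (LinearMap.range Y.mulVecLin)
  have k2 := key (LinearMap.range (Y * Z).mulVecLin)
  have hle : LinearMap.range (Y * Z).mulVecLin ≤ LinearMap.range Y.mulVecLin := by
    rw [Matrix.mulVecLin_mul]
    exact LinearMap.range_comp_le_range _ _
  have k3 : Module.finrank F ((LinearMap.range (Y * Z).mulVecLin ⊓
      LinearMap.ker X.mulVecLin : Submodule F (Fin b → F))) ≤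
      Module.finrank F ((LinearMap.range Y.mulVecLin ⊓
      LinearMap.ker X.mulVecLin : Submodule F (Fin b → F))) :=
    Submodule.finrank_mono (inf_le_inf_right _ hle)
  omega

/-- one step -/
theorem step (E g : Mt) (c1 c2 : ℕ) (h1 : (E * E - E).rank ≤ c1)
    (h2 : (E * g - g * E).rank ≤ c2) :
    (E * g).rank + ((1 - E) * g).rank ≤ g.rank + (2 * c2 + c1) := by
  have k1 := frob E g (1 - E)
  have k2 : ((1 - E) * g).rank ≤ (g * (1 - E)).rank + c2 := by
    have e : (1 - E) * g = g * (1 - E) - (E * g - g * E) := by noncomm_ring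
    rw [e]
    exact (rs _ _).trans (Nat.add_le_add_left h2 _)
  have k3 : (E * g * (1 - E)).rank ≤ c2 + c1 := by
    have e : E * g * (1 - E) = E * (E * g - g * E) - (E * E - E) * g := by noncomm_ring
    rw [e]
    refine (rs _ _).trans (Nat.add_le_add ?_ ?_)
    · exact (rank_mul_le_right _ _).trans h2
    · exact (rank_mul_le_left _ _).trans h1
  omega

/-- the remainders -/
def gg (E : ℕ → Mt) (f : Mt) : ℕ → Mt
  | 0 => f
  | (n + 1) => (1 - E n) * gg E f n

/-- the products -/
def pp (E : ℕ → Mt) : ℕ → Mt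
  | 0 => 1
  | (n + 1) => pp E n * (1 - E n)

theorem gA (E : ℕ → Mt) (f : Mt) (c : ℕ) (h2 : ∀ i j, i ≠ j → (E i * E j).rank ≤ c) :
    ∀ j k, j ≤ k → (E k * gg E f j - E k * f).rank ≤ j * c := by
  intro j
  induction j with
  | zero =>
    intro k _
    simp [gg]
  | succ j ih =>
    intro k hk
    have e : E k * gg E f (j + 1) - E k * f =
        (E k * gg E f j - E k * f) - E k * E j * gg E f j := by
      rw [gg]
      noncomm_ring
    rw [e]
    refine (rs _ _).trans ?_
    rw [Nat.succ_mul]
    exact Nat.add_le_add (ih k (by omega))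
      ((rank_mul_le_left _ _).trans (h2 k j (by omega)))

theorem gB (E : ℕ → Mt) (f : Mt) (c : ℕ) (h2 : ∀ i j, i ≠ j → (E i * E j).rank ≤ c)
    (h3 : ∀ i, (E i * f - f * E i).rank ≤ c) :
    ∀ j k, j ≤ k → (gg E f j * E k - E k * f).rank ≤ (j + 1) * c := by
  intro j
  induction j with
  | zero =>
    intro k _
    have e : gg E f 0 * E k - E k * f = -(E k * f - f * E k) := by
      rw [gg]
      noncomm_ring
    rw [e, zero_add, one_mul]
    exact (rn _).trans (h3 k)
  | succ j ih =>
    intro k hk
    have e : gg E f (j + 1) * E k - E k * f =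
        (1 - E j) * (gg E f j * E k - E k * f) - E j * E k * f := by
      rw [gg]
      noncomm_ring
    rw [e]
    refine (rs _ _).trans ?_
    rw [Nat.succ_mul (j + 1)]
    exact Nat.add_le_add ((rank_mul_le_right _ _).trans (ih k (by omega)))
      ((rank_mul_le_left _ _).trans (h2 j k (by omega)))

theorem seq (E : ℕ → Mt) (f : Mt) (c : ℕ) (h1 : ∀ i, (E i * E i - E i).rank ≤ c)
    (h2 : ∀ i j, i ≠ j → (E i * E j).rank ≤ c)
    (h3 : ∀ i, (E i * f - f * E i).rank ≤ c) :
    ∀ N, (∑ i ∈ Finset.range N, (E i * f).rank) + (gg E f N).rank ≤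
      f.rank + (5 * N ^ 2 + 3 * N) * c := by
  intro N
  induction N with
  | zero => simp [gg]
  | succ N ih =>
    rw [Finset.sum_range_succ]
    have a := gA E f c h2 N N le_rfl
    have b' := gB E f c h2 h3 N N le_rfl
    have cm : (E N * gg E f N - gg E f N * E N).rank ≤ (2 * N + 1) * c := by
      have e : E N * gg E f N - gg E f N * E N =
          (E N * gg E f N - E N * f) - (gg E f N * E N - E N * f) := by noncomm_ring
      rw [e]
      refine (rs _ _).trans ((Nat.add_le_add a b').trans (le_of_eq ?_))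
      ring
    have s := step (E N) (gg E f N) c ((2 * N + 1) * c) (h1 N) cm
    have r : (E N * f).rank ≤ (E N * gg E f N).rank + N * c := by
      have e : E N * f = E N * gg E f N - (E N * gg E f N - E N * f) := by noncomm_ring
      rw [e]
      exact (rs _ _).trans (Nat.add_le_add_left a _)
    have t : (gg E f (N + 1)).rank = ((1 - E N) * gg E f N).rank := by rw [gg]
    rw [t]
    nlinarith [Nat.zero_le (N * c)]

theorem prod (E : ℕ → Mt) (c : ℕ) (h2 : ∀ i j, i ≠ j → (E i * E j).rank ≤ c) :
    ∀ N, (pp E N - (1 - ∑ i ∈ Finset.range N, E i)).rank ≤ N ^ 2 * c := by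
  intro N
  induction N with
  | zero => simp [pp]
  | succ N ih =>
    have e : pp E (N + 1) - (1 - ∑ i ∈ Finset.range (N + 1), E i) =
        (pp E N - (1 - ∑ i ∈ Finset.range N, E i)) * (1 - E N) +
          (∑ i ∈ Finset.range N, E i) * E N := by
      rw [pp, Finset.sum_range_succ]
      noncomm_ring
    have s : ∀ K, K ≤ N → ((∑ i ∈ Finset.range K, E i) * E N).rank ≤ K * c := by
      intro K
      induction K with
      | zero => simp
      | succ K ihK =>
        intro hK
        rw [Finset.sum_range_succ, add_mul, Nat.succ_mul]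
        exact (ra _ _).trans (Nat.add_le_add (ihK (by omega)) (h2 K N (by omega)))
    rw [e]
    refine (ra _ _).trans ?_
    have q := (rank_mul_le_left (pp E N - (1 - ∑ i ∈ Finset.range N, E i)) (1 - E N)).trans ih
    have q2 := s N le_rfl
    nlinarith [Nat.zero_le (N * c)]

theorem up (E : ℕ → Mt) (f : Mt) : ∀ N,
    ((∑ i ∈ Finset.range N, E i) * f).rank ≤ ∑ i ∈ Finset.range N, (E i * f).rank := by
  intro N
  induction N with
  | zero => simp
  | succ N ih =>
    rw [Finset.sum_range_succ, Finset.sum_range_succ, add_mul]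
    exact (ra _ _).trans (Nat.add_le_add_right ih _)

end

end Pool.Agent.Helper40.FR.OR

namespace Pool.Agent.Helper40.FR

open Matrix Pool.Agent.Helper81.Fmr Pool.Agent.Helper42.FR Pool.Agent.Helper40.FR.OR

universe u

/-- the row -/
theorem st_OR (F : Type u) [Field F] : ST_OR F := by
  refine ⟨140, fun b c E f h1 h2 h3 h4 => ?_⟩
  set G : ℕ → Matrix (Fin b) (Fin b) F := fun i => if h : i < 5 then E ⟨i, h⟩ else 0 with hG
  have g1 : ∀ i, (G i * G i - G i).rank ≤ c := by
    intro i
    rw [hG]
    by_cases h : i < 5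
    · simpa [h, AE] using h1 ⟨i, h⟩
    · simp [h]
  have g2 : ∀ i j, i ≠ j → (G i * G j).rank ≤ c := by
    intro i j hij
    rw [hG]
    by_cases h : i < 5
    · by_cases h' : j < 5
      · have := h2 ⟨i, h⟩ ⟨j, h'⟩ (by simpa using hij)
        simpa [h, h', AE] using this
      · simp [h']
    · simp [h]
  have g3 : ∀ i, (G i * f - f * G i).rank ≤ c := by
    intro i
    rw [hG]
    by_cases h : i < 5
    · simpa [h, AE] using h4 ⟨i, h⟩
    · simp [h]
  have e1 : ∑ i, (E i * f).rank = ∑ i ∈ Finset.range 5, (G i * f).rank := by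
    simp [Fin.sum_univ_five, Finset.sum_range_succ, hG]
  have e2 : (pp G 5).rank ≤ c := by
    have := h3
    unfold AE at this
    rw [sub_zero] at this
    simpa [pp, hG] using this
  rw [e1]
  constructor
  · have p := prod G c g2 5
    have u := up G f 5
    have s5 : (1 - ∑ i ∈ Finset.range 5, G i).rank ≤ 26 * c := by
      have e : 1 - ∑ i ∈ Finset.range 5, G i =
          pp G 5 - (pp G 5 - (1 - ∑ i ∈ Finset.range 5, G i)) := by noncomm_ring
      rw [e]
      refine (rs _ _).trans ?_
      omega
    have e : f = (1 - ∑ i ∈ Finset.range 5, G i) * f + (∑ i ∈ Finset.range 5, G i) * f := by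
      noncomm_ring
    have k := ra ((1 - ∑ i ∈ Finset.range 5, G i) * f) ((∑ i ∈ Finset.range 5, G i) * f)
    rw [← e] at k
    have k2 := (rank_mul_le_left (1 - ∑ i ∈ Finset.range 5, G i) f).trans s5
    omega
  · have s := seq G f c g1 g2 g3 5
    omega

end Pool.Agent.Helper40.FR
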