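import Pool.Agent.Helper40.FR.SDefs
import Pool.Agent.Helper40.FR.NCVb
import Pool.Agent.Helper40.MR.CSTk

/-!
States and projections.
-/

set_option autoImplicit false

open Finset Filter

namespace Pool.Agent.Helper40.FR

universe u

open Pool.Agent.Helper40.Mob (IsState)
open Pool.Agent.Helper40.MR (cst_exists_gns cst_isState_of_norm cst_state_one)

variable {A : Type u} [CStarAlgebra A]

theorem scv_le (ρ : A →L[ℂ] ℂ) (hρ : IsState ρ) (y : A) : ‖ρ y‖ ≤ ‖y‖ := by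
  have := ρ.le_opNorm y
  rwa [hρ.2, one_mul] at this

/-- the mass of a projection -/
noncomputable def scl (ρ : A →L[ℂ] ℂ) (q : A) : ℝ := (ρ q).re

theorem scv_proj (ρ : A →L[ℂ] ℂ) (hρ : IsState ρ) (q : A) (hq : IsStarProjection q) :
    ρ q = (scl ρ q : ℂ) ∧ 0 ≤ scl ρ q ∧ ∀ y : A, ‖ρ (q * y * q)‖ ≤ scl ρ q * ‖y‖ := by
  obtain ⟨H, _, _, _, π, ζ, hζ⟩ := cst_exists_gns ρ hρ
  have hqq := hq.isIdempotentElem.eq
  have hsa := hq.isSelfAdjoint.star_eq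
  have hadj : ∀ v w : H, inner ℂ (π q v) w = inner ℂ v (π q w) := by
    intro v w
    have h1 : π q = star (π q) := by rw [← map_star, hsa]
    conv_rhs => rw [h1, ContinuousLinearMap.star_eq_adjoint]
    rw [ContinuousLinearMap.adjoint_inner_right]
  have hπ : ∀ v : H, π q (π q v) = π q v := by
    intro v
    have h1 : (π q * π q) v = π q v := by rw [← map_mul, hqq]
    exact h1
  have h1 : ρ q = ((‖π q ζ‖ ^ 2 : ℝ) : ℂ) := by
    rw [hζ, ← hπ ζ, ← hadj, inner_self_eq_norm_sq_to_K]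
    push_cast
    rw [hπ]
    rfl
  have h2 : scl ρ q = ‖π q ζ‖ ^ 2 := by rw [scl, h1, Complex.ofReal_re]
  refine ⟨by rw [h2, h1], by rw [h2]; positivity, fun y => ?_⟩
  have h3 : ρ (q * y * q) = inner ℂ (π q ζ) (π y (π q ζ)) := by
    rw [hζ, map_mul, map_mul]
    change inner ℂ ζ (π q (π y (π q ζ))) = _
    rw [hadj]
  rw [h3, h2]
  calc ‖inner ℂ (π q ζ) (π y (π q ζ))‖ ≤ ‖π q ζ‖ * ‖π y (π q ζ)‖ := norm_inner_le_norm _ _
    _ ≤ ‖π q ζ‖ * (‖y‖ * ‖π q ζ‖) := by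
        refine mul_le_mul_of_nonneg_left ?_ (norm_nonneg _)
        refine (ContinuousLinearMap.le_opNorm _ _).trans ?_
        exact mul_le_mul_of_nonneg_right (NonUnitalStarAlgHom.norm_apply_le π y) (norm_nonneg _)
    _ = ‖π q ζ‖ ^ 2 * ‖y‖ := by ring

theorem scv_supp (ρ : A →L[ℂ] ℂ) (hρ : IsState ρ) (q p : A) (hq : IsStarProjection q)
    (hqp : q * p = q) (h1 : ρ q = 1) : ρ p = 1 := by
  obtain ⟨H, _, _, _, π, ζ, hζ⟩ := cst_exists_gns ρ hρ
  have hqq := hq.isIdempotentElem.eq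
  have hsa := hq.isSelfAdjoint.star_eq
  have hadj : ∀ v w : H, inner ℂ (π q v) w = inner ℂ v (π q w) := by
    intro v w
    have h1 : π q = star (π q) := by rw [← map_star, hsa]
    conv_rhs => rw [h1, ContinuousLinearMap.star_eq_adjoint]
    rw [ContinuousLinearMap.adjoint_inner_right]
  have hπ : ∀ v : H, π q (π q v) = π q v := by
    intro v
    have h1 : (π q * π q) v = π q v := by rw [← map_mul, hqq]
    exact h1
  have h2 : inner ℂ ζ (π q ζ) = (1 : ℂ) := by rw [← hζ, h1]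
  have h3 : inner ℂ ζ ζ = (1 : ℂ) := by
    have := hζ 1
    rw [cst_state_one ρ hρ, map_one] at this
    exact this.symm
  have h4 : inner ℂ (π q ζ) (π q ζ) = (1 : ℂ) := by rw [hadj, hπ, h2]
  have h5 : inner ℂ (π q ζ) ζ = (1 : ℂ) := by rw [hadj, h2]
  have h6 : ζ - π q ζ = 0 := by
    rw [← inner_self_eq_zero (𝕜 := ℂ), inner_sub_left, inner_sub_right, inner_sub_right, h2, h3,
      h4, h5]
    ring
  have h7 : π q ζ = ζ := (sub_eq_zero.1 h6).symm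
  have h8 : ρ p = inner ℂ ζ (π (q * p) ζ) := by
    rw [hζ, map_mul]
    change _ = inner ℂ ζ (π q (π p ζ))
    rw [← hadj, h7]
  rw [h8, hqp, h2]

theorem scv_star_it (α : A →⋆ₐ[ℂ] A) (q : A) (hq : IsStarProjection q) (r : ℕ) :
    IsStarProjection (α^[r] q) := by
  induction r with
  | zero => exact hq
  | succ r ih =>
    rw [Function.iterate_succ', Function.comp_apply]
    exact ih.map α

theorem scv_it_one (α : A →⋆ₐ[ℂ] A) (r : ℕ) : α^[r] (1 : A) = 1 :=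
  Function.iterate_fixed (map_one α) r

/-- the corner of a state, shifted -/
theorem scv_corner (α : A →⋆ₐ[ℂ] A) (ρ : A →L[ℂ] ℂ) (hρ : IsState ρ) (q : A)
    (hq : IsStarProjection q) (hl : 0 < scl ρ q) (k : ℕ) :
    ∃ ψ : A →L[ℂ] ℂ, IsState ψ ∧ ∀ y, ψ y = ρ (q * α^[k] y * q) / (scl ρ q : ℂ) := by
  obtain ⟨h1, h2, h3⟩ := scv_proj ρ hρ q hq
  have hl' : (scl ρ q : ℂ) ≠ 0 := by exact_mod_cast hl.ne'
  let f : A →ₗ[ℂ] ℂ :=
    { toFun := fun y => ρ (q * α^[k] y * q) / (scl ρ q : ℂ)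
      map_add' := fun x y => by
        rw [ncv_itadd, mul_add, add_mul, map_add, add_div]
      map_smul' := fun c x => by
        rw [ncv_itsmul, mul_smul_comm, smul_mul_assoc, map_smul, smul_eq_mul, RingHom.id_apply,
          smul_eq_mul, mul_div_assoc] }
  have hf : ∀ y, ‖f y‖ ≤ 1 * ‖y‖ := by
    intro y
    change ‖ρ (q * α^[k] y * q) / (scl ρ q : ℂ)‖ ≤ 1 * ‖y‖
    rw [norm_div, Complex.norm_real, Real.norm_of_nonneg h2, div_le_iff₀ hl, one_mul, mul_comm]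
    exact (h3 _).trans (mul_le_mul_of_nonneg_left (ncv_itn _ _ _) h2)
  refine ⟨f.mkContinuous 1 hf, ?_, fun y => rfl⟩
  have hone : (f.mkContinuous 1 hf) 1 = 1 := by
    change ρ (q * α^[k] 1 * q) / (scl ρ q : ℂ) = 1
    rw [scv_it_one, mul_one, hq.isIdempotentElem.eq, h1, div_self hl']
  refine cst_isState_of_norm _ hone (le_antisymm (LinearMap.mkContinuous_norm_le f zero_le_one hf) ?_)
  have hnt : Nontrivial A := by
    by_contra h
    rw [not_nontrivial_iff_subsingleton] at h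
    rw [Subsingleton.elim q 0] at hl
    simp [scl] at hl
  have := (f.mkContinuous 1 hf).le_opNorm 1
  rw [hone, norm_one, norm_one, mul_one] at this
  exact this

/-- a shifted state -/
theorem scv_shift (α : A →⋆ₐ[ℂ] A) (ρ : A →L[ℂ] ℂ) (hρ : IsState ρ) (k : ℕ) :
    ∃ ψ : A →L[ℂ] ℂ, IsState ψ ∧ ∀ y, ψ y = ρ (α^[k] y) := by
  have h1 : scl ρ 1 = 1 := by rw [scl, cst_state_one ρ hρ, Complex.one_re]
  obtain ⟨ψ, h2, h3⟩ := scv_corner α ρ hρ 1 (IsStarProjection.one A) (by rw [h1]; exact one_pos) k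
  refine ⟨ψ, h2, fun y => ?_⟩
  rw [h3, h1, one_mul, mul_one, Complex.ofReal_one, div_one]

/-- states as centres -/
theorem scv_centers (α : A → A) (u p : A) (m : ℕ) (ε : ℝ) (d : ℕ) (h : FewWords α u p m ε d) :
    ∃ σ : ℕ → (A →L[ℂ] ℂ), (∀ s y, ‖σ s y‖ ≤ ‖y‖) ∧ ∀ ρ : A →L[ℂ] ℂ, IsState ρ → ρ p = 1 →
      ∃ s < d, IsState (σ s) ∧ σ s p = 1 ∧
        ∑ i ∈ range m, ‖ρ (α^[i] u) - σ s (α^[i] u)‖ ≤ 2 * ε * m := by
  classical
  obtain ⟨w, hw⟩ := h
  let P : ℕ → (A →L[ℂ] ℂ) → Prop := fun s ρ => IsState ρ ∧ ρ p = 1 ∧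
    ∑ i ∈ Finset.range m, ‖ρ (α^[i] u) - w s i‖ ≤ ε * m
  refine ⟨fun s => if h : ∃ ρ, P s ρ then h.choose else 0, ?_, ?_⟩
  · intro s y
    dsimp only
    split_ifs with h
    · exact scv_le _ h.choose_spec.1 y
    · rw [_root_.zero_apply, norm_zero]; exact norm_nonneg _
  · intro ρ hρ hρp
    obtain ⟨s, hs, hs2⟩ := hw ρ hρ hρp
    have h : ∃ ρ, P s ρ := ⟨ρ, hρ, hρp, hs2⟩
    refine ⟨s, hs, ?_⟩
    simp only [dif_pos h]
    obtain ⟨h1, h2, h3⟩ := h.choose_spec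
    refine ⟨h1, h2, ?_⟩
    calc ∑ i ∈ range m, ‖ρ (α^[i] u) - h.choose (α^[i] u)‖ ≤
        ∑ i ∈ range m, (‖ρ (α^[i] u) - w s i‖ + ‖h.choose (α^[i] u) - w s i‖) := by
          refine Finset.sum_le_sum fun i _ => ?_
          calc _ = ‖(ρ (α^[i] u) - w s i) - (h.choose (α^[i] u) - w s i)‖ := by congr 1; ring
            _ ≤ _ := norm_sub_le _ _
      _ ≤ ε * m + ε * m := by
          rw [Finset.sum_add_distrib]
          exact add_le_add hs2 h3
      _ = 2 * ε * m := by ring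

theorem scv_few_mono (α : A → A) (u p : A) (m : ℕ) (ε : ℝ) (d d' : ℕ) (hd : d ≤ d')
    (h : FewWords α u p m ε d) : FewWords α u p m ε d' := by
  obtain ⟨w, hw⟩ := h
  refine ⟨w, fun ρ hρ hp => ?_⟩
  obtain ⟨s, hs, h⟩ := hw ρ hρ hp
  exact ⟨s, by omega, h⟩

end Pool.Agent.Helper40.FR
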