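import Pool.Agent.Helper40.FR.SCa

/-!
Two levels.
-/

set_option autoImplicit false

open Finset Filter

namespace Pool.Agent.Helper40.FR

universe u

open Pool.Agent.Helper40.Mob (IsState)
open Pool.Agent.Helper40.MR (cst_exists_gns cst_isState_of_norm cst_state_one)
open Pool.Agent.Helper13.FR (BS ST_UNF)

variable {A : Type u} [CStarAlgebra A]

/-- sums over blocks -/
theorem scv_blocks (f : ℕ → ℝ) (b T : ℕ) :
    ∑ x ∈ range (b * T), f x = ∑ t ∈ range T, ∑ j ∈ range b, f (b * t + j) := by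
  induction T with
  | zero => simp
  | succ T ih => rw [Finset.sum_range_succ, ← ih, mul_add, mul_one, Finset.sum_range_add]

/-- the lower level: segments of the states at the upper level -/
theorem scv_low (α : A →⋆ₐ[ℂ] A) (u p q : A) (n Λ d : ℕ) (ε : ℝ) (hd : 1 ≤ d)
    (hq1 : IsStarProjection q) (hqp : q * p = q) (hp : α^[n] p = p)
    (h : FewWords α u p n ε d) : ∃ σ : ℕ → (A →L[ℂ] ℂ), (∀ s y, ‖σ s y‖ ≤ ‖y‖) ∧
      ∀ τ : ℕ → (A →L[ℂ] ℂ), ∃ S : ℕ → ℕ → ℕ, (∀ c y, S c y < d) ∧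
        ∀ c, IsState (τ c) → τ c q = 1 →
          ∑ y ∈ range Λ, ∑ l ∈ range n,
            ‖τ c (α^[n * y + l] u) - σ (S c y) (α^[l] u)‖ ≤ Λ * (2 * ε * n) := by
  classical
  obtain ⟨σ, hσ1, hσ2⟩ := scv_centers α u p n ε d h
  refine ⟨σ, hσ1, fun τ => ?_⟩
  have key : ∀ c y : ℕ, ∃ s : ℕ, s < d ∧ (IsState (τ c) → τ c q = 1 →
      ∑ l ∈ range n, ‖τ c (α^[n * y + l] u) - σ s (α^[l] u)‖ ≤ 2 * ε * n) := by
    intro c y
    by_cases hc : IsState (τ c) ∧ τ c q = 1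
    · obtain ⟨ψ, hψ1, hψ2⟩ := scv_shift α (τ c) hc.1 (n * y)
      have h1 : ψ p = 1 := by
        rw [hψ2, ncv_per α n p hp y]
        exact scv_supp _ hc.1 q p hq1 hqp hc.2
      obtain ⟨s, hs, -, -, h2⟩ := hσ2 ψ hψ1 h1
      refine ⟨s, hs, fun _ _ => ?_⟩
      refine le_trans (le_of_eq ?_) h2
      refine Finset.sum_congr rfl fun l _ => ?_
      rw [hψ2, ← Function.iterate_add_apply]
    · exact ⟨0, hd, fun h1 h2 => absurd ⟨h1, h2⟩ hc⟩
  choose S hS1 hS2 using key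
  refine ⟨S, hS1, fun c hc1 hc2 => ?_⟩
  calc _ ≤ ∑ y ∈ range Λ, 2 * ε * n := Finset.sum_le_sum fun y _ => hS2 c y hc1 hc2
    _ = Λ * (2 * ε * n) := by simp

/-- the upper level: the corners of a state -/
theorem scv_up (α : A →⋆ₐ[ℂ] A) (u p q : A) (n Λ d : ℕ) (ε : ℝ) (hd : 1 ≤ d)
    (hq1 : IsStarProjection q) (hqp : q * p = q) (hp : α^[n] p = p) (hq : α^[n * Λ] q = q)
    (h : FewWords α u p n ε d) (h' : FewWords α u q (n * Λ) ε d) :
    ∃ (σ : ℕ → (A →L[ℂ] ℂ)) (S : ℕ → ℕ → ℕ), (∀ s y, ‖σ s y‖ ≤ ‖y‖) ∧ (∀ c y, S c y < d) ∧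
      ∀ ρ : A →L[ℂ] ℂ, IsState ρ → ∀ r : ℕ, ∃ C : ℕ → ℕ, (∀ t, C t < d) ∧
        ∀ t, ∑ y ∈ range Λ, ∑ l ∈ range n,
          ‖ρ (α^[r] q * α^[r + n * Λ * t + (n * y + l)] u * α^[r] q) -
            (scl ρ (α^[r] q) : ℂ) * σ (S (C t) y) (α^[l] u)‖ ≤
            scl ρ (α^[r] q) * (4 * ε * (n * Λ)) := by
  classical
  obtain ⟨σ, hσ1, hσ2⟩ := scv_low α u p q n Λ d ε hd hq1 hqp hp h
  obtain ⟨τ, hτ1, hτ2⟩ := scv_centers α u q (n * Λ) ε d h'
  obtain ⟨S, hS1, hS2⟩ := hσ2 τ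
  refine ⟨σ, S, hσ1, hS1, fun ρ hρ r => ?_⟩
  set qr := α^[r] q with hqr
  have hqr1 : IsStarProjection qr := scv_star_it α q hq1 r
  obtain ⟨hl1, hl2, hl3⟩ := scv_proj ρ hρ qr hqr1
  have key : ∀ t : ℕ, ∃ c : ℕ, c < d ∧ ∑ y ∈ range Λ, ∑ l ∈ range n,
          ‖ρ (qr * α^[r + n * Λ * t + (n * y + l)] u * qr) -
            (scl ρ qr : ℂ) * σ (S c y) (α^[l] u)‖ ≤
            scl ρ qr * (4 * ε * (n * Λ)) := by
    intro t
    rcases hl2.eq_or_lt with h0 | hpos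
    · refine ⟨0, hd, ?_⟩
      have h1 : ∀ y : A, ρ (qr * y * qr) = 0 := by
        intro y
        have := hl3 y
        rw [← h0, zero_mul] at this
        exact norm_le_zero_iff.1 this
      simp [h1, ← h0]
    · obtain ⟨ψ, hψ1, hψ2⟩ := scv_corner α ρ hρ qr hqr1 hpos (r + n * Λ * t)
      have hne : (scl ρ qr : ℂ) ≠ 0 := by exact_mod_cast hpos.ne'
      have h1 : ψ q = 1 := by
        rw [hψ2]
        have h2 : α^[r + n * Λ * t] q = qr := by
          rw [Function.iterate_add_apply, ncv_per α (n * Λ) q hq]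
        rw [h2, hqr1.isIdempotentElem.eq, hqr1.isIdempotentElem.eq, hl1]
        rw [div_self hne]
      obtain ⟨c, hc, hc1, hc2, hc3⟩ := hτ2 ψ hψ1 h1
      refine ⟨c, hc, ?_⟩
      have h3 := hS2 c hc1 hc2
      have h4 : ∑ y ∈ range Λ, ∑ l ∈ range n,
          ‖ψ (α^[n * y + l] u) - τ c (α^[n * y + l] u)‖ ≤ 2 * ε * (n * Λ) := by
        rw [← scv_blocks (fun x => ‖ψ (α^[x] u) - τ c (α^[x] u)‖) n Λ]
        push_cast at hc3
        exact hc3
      have h5 : ∀ y l : ℕ, ‖ρ (qr * α^[r + n * Λ * t + (n * y + l)] u * qr) -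
            (scl ρ qr : ℂ) * σ (S c y) (α^[l] u)‖ ≤
          scl ρ qr * (‖ψ (α^[n * y + l] u) - τ c (α^[n * y + l] u)‖ +
            ‖τ c (α^[n * y + l] u) - σ (S c y) (α^[l] u)‖) := by
        intro y l
        have h6 : ρ (qr * α^[r + n * Λ * t + (n * y + l)] u * qr) =
            (scl ρ qr : ℂ) * ψ (α^[n * y + l] u) := by
          rw [hψ2, mul_div_cancel₀ _ hne, Function.iterate_add_apply]
        rw [h6, ← mul_sub, norm_mul, Complex.norm_real, Real.norm_of_nonneg hl2]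
        refine mul_le_mul_of_nonneg_left ?_ hl2
        calc _ = ‖(ψ (α^[n * y + l] u) - τ c (α^[n * y + l] u)) +
              (τ c (α^[n * y + l] u) - σ (S c y) (α^[l] u))‖ := by congr 1; ring
          _ ≤ _ := norm_add_le _ _
      calc _ ≤ ∑ y ∈ range Λ, ∑ l ∈ range n,
            scl ρ qr * (‖ψ (α^[n * y + l] u) - τ c (α^[n * y + l] u)‖ +
            ‖τ c (α^[n * y + l] u) - σ (S c y) (α^[l] u)‖) :=
            Finset.sum_le_sum fun y _ => Finset.sum_le_sum fun l _ => h5 y l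
        _ = scl ρ qr * (∑ y ∈ range Λ, ∑ l ∈ range n,
            ‖ψ (α^[n * y + l] u) - τ c (α^[n * y + l] u)‖ + ∑ y ∈ range Λ, ∑ l ∈ range n,
            ‖τ c (α^[n * y + l] u) - σ (S c y) (α^[l] u)‖) := by
            simp only [← Finset.mul_sum, Finset.sum_add_distrib]
        _ ≤ scl ρ qr * (4 * ε * (n * Λ)) := by
            refine mul_le_mul_of_nonneg_left ?_ hl2
            linarith
  choose C hC1 hC2 using key
  exact ⟨C, hC1, hC2⟩

end Pool.Agent.Helper40.FR
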