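import Pool.Agent.Helper40.FR.SCb

/-!
The sums over a tower, seen by a state.
-/

set_option autoImplicit false

open Finset Filter

namespace Pool.Agent.Helper40.FR

universe u

open Pool.Agent.Helper40.Mob (IsState)
open Pool.Agent.Helper40.MR (cst_exists_gns cst_isState_of_norm cst_state_one)
open Pool.Agent.Helper13.FR (BS ST_UNF)

variable {A : Type u} [CStarAlgebra A]

/-- the two-level model -/
noncomputable def scg (n Λ r : ℕ) (v : ℕ → ℕ → ℂ) (S : ℕ → ℕ → ℕ) (C : ℕ → ℕ) (x : ℕ) : ℂ :=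
  if x < r then 0 else
    v (S (C ((x - r) / (n * Λ))) ((x - r) % (n * Λ) / n)) ((x - r) % (n * Λ) % n)

noncomputable def scφ (n a : ℕ) (z : ℂ) (B : ℝ) (v : ℕ → ℕ → ℂ) (s x : ℕ) : ℂ :=
  z ^ ((x + a) % n) * v s ((x + a) % n) / (B : ℂ)

noncomputable def scG (n Λ : ℕ) (z : ℂ) (S : ℕ → ℕ → ℕ) (s c y : ℕ) : ℂ :=
  if S c (y % Λ) = s then z ^ (n * (y % Λ)) else 0

noncomputable def scω (n Λ r : ℕ) (z : ℂ) (B : ℝ) (C : ℕ → ℕ) (c t : ℕ) : ℂ :=
  if t = 0 then 0 else if C (t - 1) = c then (B : ℂ) * z ^ (r + n * Λ * (t - 1)) else 0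

theorem scv_main (n Λ d r : ℕ) (z : ℂ) (B : ℝ) (hB : 0 < B) (v : ℕ → ℕ → ℂ) (S : ℕ → ℕ → ℕ)
    (C : ℕ → ℕ) (hn : 1 ≤ n) (hS : ∀ c y, S c y < d) (hC : ∀ t, C t < d) (hrn : r < n * Λ)
    (x : ℕ) :
    ∑ s ∈ range d, ∑ c ∈ range d, scφ n (n * Λ - r) z B v s x *
      scG n Λ z S s c ((x + (n * Λ - r)) / n) *
        scω n Λ r z B C c ((x + (n * Λ - r)) / (n * Λ)) = z ^ x * scg n Λ r v S C x := by
  have hBc : (B : ℂ) ≠ 0 := by exact_mod_cast hB.ne'
  by_cases hxr : x < r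
  · have h2 : (x + (n * Λ - r)) / (n * Λ) = 0 := Nat.div_eq_of_lt (by omega)
    rw [h2]
    simp [scω, scg, hxr]
  · have hΛ : 0 < Λ := by
      rcases Nat.eq_zero_or_pos Λ with h | h
      · rw [h] at hrn; omega
      · exact h
    have hl : (x - r) % (n * Λ) % n < n := Nat.mod_lt _ (by omega)
    have hy : (x - r) % (n * Λ) / n < Λ :=
      Nat.div_lt_of_lt_mul (Nat.mod_lt _ (by omega))
    obtain ⟨t, ht⟩ : ∃ t, (x - r) / (n * Λ) = t := ⟨_, rfl⟩
    obtain ⟨y, hy'⟩ : ∃ y, (x - r) % (n * Λ) / n = y := ⟨_, rfl⟩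
    obtain ⟨l, hl'⟩ : ∃ l, (x - r) % (n * Λ) % n = l := ⟨_, rfl⟩
    have hxe : x = r + (n * Λ * t + (n * y + l)) := by
      rw [← ht, ← hy', ← hl', Nat.div_add_mod, Nat.div_add_mod]
      omega
    rw [hl'] at hl
    rw [hy'] at hy
    have hX : x + (n * Λ - r) = n * (Λ * (t + 1) + y) + l := by
      have : n * (Λ * (t + 1) + y) + l = n * Λ * t + (n * y + l) + n * Λ := by ring
      omega
    have h1 : (x + (n * Λ - r)) % n = l := by rw [hX, Nat.mul_add_mod, Nat.mod_eq_of_lt hl]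
    have h2 : (x + (n * Λ - r)) / n = Λ * (t + 1) + y := by
      rw [hX, Nat.mul_add_div (by omega), Nat.div_eq_of_lt hl, add_zero]
    have h3 : (x + (n * Λ - r)) / (n * Λ) = t + 1 := by
      rw [← Nat.div_div_eq_div_mul, h2, Nat.mul_add_div hΛ, Nat.div_eq_of_lt hy, add_zero]
    have h4 : (Λ * (t + 1) + y) % Λ = y := by rw [Nat.mul_add_mod, Nat.mod_eq_of_lt hy]
    simp only [scφ, scG, scω, scg, h1, h2, h3, h4, ht, hy', hl', if_neg hxr]
    rw [Finset.sum_eq_single (S (C t) y)]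
    · rw [Finset.sum_eq_single (C t)]
      · simp only [if_true, Nat.add_one_ne_zero, if_false, Nat.add_sub_cancel]
        rw [hxe]
        field_simp
        ring
      · intro c _ hc
        simp [hc.symm]
      · intro h
        exact absurd (Finset.mem_range.2 (hC _)) h
    · intro s _ hs
      refine Finset.sum_eq_zero fun c _ => ?_
      by_cases hc : C t = c
      · subst hc
        simp [hs.symm]
      · simp [hc]
    · intro h
      exact absurd (Finset.mem_range.2 (hS _ _)) h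

theorem scv_ω (n Λ r : ℕ) (z : ℂ) (hz : ‖z‖ = 1) (B : ℝ) (hB : 0 < B) (C : ℕ → ℕ) (c t : ℕ) :
    ‖scω n Λ r z B C c t‖ ≤ B := by
  unfold scω
  split_ifs
  · rw [norm_zero]; exact hB.le
  · rw [norm_mul, norm_pow, hz, one_pow, mul_one, Complex.norm_real, Real.norm_of_nonneg hB.le]
  · rw [norm_zero]; exact hB.le

theorem scv_φ (n a : ℕ) (z : ℂ) (hz : ‖z‖ = 1) (B : ℝ) (hB : 0 < B) (v : ℕ → ℕ → ℂ)
    (hv : ∀ s l, ‖v s l‖ ≤ B) (s x : ℕ) : ‖scφ n a z B v s x‖ ≤ 1 := by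
  unfold scφ
  rw [norm_div, norm_mul, norm_pow, hz, one_pow, one_mul, Complex.norm_real,
    Real.norm_of_nonneg hB.le, div_le_one hB]
  exact hv _ _

theorem scv_perφ (n a : ℕ) (z : ℂ) (B : ℝ) (v : ℕ → ℕ → ℂ) (s x : ℕ) :
    scφ n a z B v s (x + n) = scφ n a z B v s x := by
  unfold scφ
  rw [show x + n + a = x + a + n by ring, Nat.add_mod_right]

theorem scv_G (n Λ : ℕ) (z : ℂ) (hz : ‖z‖ = 1) (S : ℕ → ℕ → ℕ) (s c y : ℕ) :
    ‖scG n Λ z S s c y‖ ≤ 1 := by
  unfold scG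
  split_ifs
  · rw [norm_pow, hz, one_pow]
  · rw [norm_zero]; exact zero_le_one

theorem scv_perG (n Λ : ℕ) (z : ℂ) (S : ℕ → ℕ → ℕ) (s c y : ℕ) :
    scG n Λ z S s c (y + Λ) = scG n Λ z S s c y := by
  unfold scG
  rw [Nat.add_mod_right]

/-- the sum of the model -/
theorem scv_sum (n Λ d r N : ℕ) (z : ℂ) (hz : ‖z‖ = 1) (B b : ℝ) (hB : 0 < B)
    (v : ℕ → ℕ → ℂ) (S : ℕ → ℕ → ℕ) (C : ℕ → ℕ) (hn : 1 ≤ n) (hS : ∀ c y, S c y < d)
    (hC : ∀ t, C t < d) (hrn : r < n * Λ) (hv : ∀ s l, ‖v s l‖ ≤ B)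
    (hBS : ∀ (a : ℕ) (φ G : ℕ → ℂ), (∀ x, ‖φ x‖ ≤ 1 ∧ ‖G x‖ ≤ 1) →
      (∀ x, φ (x + n) = φ x) → (∀ x, G (x + Λ) = G x) → BS n Λ a φ G N ≤ b) :
    ‖∑ x ∈ Icc 1 N, ((ArithmeticFunction.moebius x : ℤ) : ℂ) * (z ^ x * scg n Λ r v S C x)‖ ≤
      d * d * (B * b) := by
  set a := n * Λ - r with ha
  have h1 : ∑ x ∈ Icc 1 N, ((ArithmeticFunction.moebius x : ℤ) : ℂ) *
      (z ^ x * scg n Λ r v S C x) = ∑ s ∈ range d, ∑ c ∈ range d, ∑ x ∈ Icc 1 N,
      (((ArithmeticFunction.moebius x : ℤ) : ℂ) * (scφ n a z B v s x *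
        scG n Λ z S s c ((x + a) / n))) • scω n Λ r z B C c ((x + a) / (n * Λ)) := by
    have h2 : ∀ x ∈ Icc 1 N, ((ArithmeticFunction.moebius x : ℤ) : ℂ) *
      (z ^ x * scg n Λ r v S C x) = ∑ s ∈ range d, ∑ c ∈ range d,
      (((ArithmeticFunction.moebius x : ℤ) : ℂ) * (scφ n a z B v s x *
        scG n Λ z S s c ((x + a) / n))) • scω n Λ r z B C c ((x + a) / (n * Λ)) := by
      intro x _
      rw [← scv_main n Λ d r z B hB v S C hn hS hC hrn x, Finset.mul_sum]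
      refine Finset.sum_congr rfl fun s _ => ?_
      rw [Finset.mul_sum]
      refine Finset.sum_congr rfl fun c _ => ?_
      rw [smul_eq_mul]
      ring
    rw [Finset.sum_congr rfl h2, Finset.sum_comm]
    exact Finset.sum_congr rfl fun s _ => Finset.sum_comm
  rw [h1]
  calc _ ≤ ∑ s ∈ range d, ∑ c ∈ range d, B * b := by
        refine (norm_sum_le _ _).trans (Finset.sum_le_sum fun s _ => ?_)
        refine (norm_sum_le _ _).trans (Finset.sum_le_sum fun c _ => ?_)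
        refine (ncv_vec n Λ a N _ _ _ B (scv_ω n Λ r z hz B hB C c)).trans ?_
        refine mul_le_mul_of_nonneg_left ?_ hB.le
        exact hBS a _ _ (fun x => ⟨scv_φ n a z hz B hB v hv s x, scv_G n Λ z hz S s c x⟩)
          (fun x => scv_perφ n a z B v s x) (fun x => scv_perG n Λ z S s c x)
    _ = d * d * (B * b) := by simp; ring

/-- the error of the model -/
theorem scv_err (n Λ r N : ℕ) (f : ℕ → ℂ) (v : ℕ → ℕ → ℂ) (S : ℕ → ℕ → ℕ) (C : ℕ → ℕ)
    (E e : ℝ) (hn : 1 ≤ n) (hΛ : 1 ≤ Λ) (hrn : r ≤ n * Λ) (hE : 0 ≤ E) (hf : ∀ x, ‖f x‖ ≤ E)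
    (he0 : 0 ≤ e)
    (he : ∀ t, ∑ y ∈ range Λ, ∑ l ∈ range n,
      ‖f (r + n * Λ * t + (n * y + l)) - v (S (C t) y) l‖ ≤ e * (n * Λ)) :
    ∑ x ∈ Icc 1 N, ‖f x - scg n Λ r v S C x‖ ≤ n * Λ * E + e * (N + n * Λ) := by
  set F : ℕ → ℝ := fun x => ‖f x - scg n Λ r v S C x‖ with hF
  have hb : 0 < n * Λ := Nat.mul_pos hn hΛ
  set T := N / (n * Λ) + 1 with hT
  have hNT : N < n * Λ * T := by
    have := Nat.lt_mul_div_succ N hb
    rw [hT]; exact this
  have h1 : ∑ x ∈ Icc 1 N, F x ≤ ∑ x ∈ range (r + n * Λ * T), F x := by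
    refine Finset.sum_le_sum_of_subset_of_nonneg ?_ fun _ _ _ => norm_nonneg _
    intro x hx
    rw [Finset.mem_Icc] at hx
    rw [Finset.mem_range]
    omega
  have h2 : ∑ x ∈ range r, F x ≤ n * Λ * E := by
    calc ∑ x ∈ range r, F x ≤ ∑ x ∈ range r, E := by
          refine Finset.sum_le_sum fun x hx => ?_
          rw [hF]
          simp only [scg, if_pos (Finset.mem_range.1 hx), sub_zero]
          exact hf x
      _ = r * E := by simp
      _ ≤ n * Λ * E := mul_le_mul_of_nonneg_right (by exact_mod_cast hrn) hE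
  have h3 : ∑ x ∈ range (n * Λ * T), F (r + x) ≤ e * (N + n * Λ) := by
    rw [scv_blocks (fun x => F (r + x)) (n * Λ) T]
    calc ∑ t ∈ range T, ∑ j ∈ range (n * Λ), F (r + (n * Λ * t + j)) ≤
        ∑ t ∈ range T, e * (n * Λ) := by
          refine Finset.sum_le_sum fun t _ => ?_
          rw [scv_blocks (fun j => F (r + (n * Λ * t + j))) n Λ]
          refine le_trans (le_of_eq ?_) (he t)
          refine Finset.sum_congr rfl fun y hy => Finset.sum_congr rfl fun l hl => ?_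
          rw [Finset.mem_range] at hy hl
          rw [hF]
          have hj : n * y + l < n * Λ := by
            calc n * y + l < n * y + n := by omega
              _ = n * (y + 1) := by ring
              _ ≤ n * Λ := Nat.mul_le_mul_left _ hy
          have e1 : ¬ (r + (n * Λ * t + (n * y + l)) < r) := by omega
          have e2 : r + (n * Λ * t + (n * y + l)) - r = n * Λ * t + (n * y + l) := by omega
          have e3 : (n * Λ * t + (n * y + l)) / (n * Λ) = t := by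
            rw [Nat.mul_add_div hb, Nat.div_eq_of_lt hj, add_zero]
          have e4 : (n * Λ * t + (n * y + l)) % (n * Λ) = n * y + l := by
            rw [Nat.mul_add_mod, Nat.mod_eq_of_lt hj]
          have e5 : (n * y + l) / n = y := by
            rw [Nat.mul_add_div (by omega), Nat.div_eq_of_lt hl, add_zero]
          have e6 : (n * y + l) % n = l := by rw [Nat.mul_add_mod, Nat.mod_eq_of_lt hl]
          have e7 : scg n Λ r v S C (r + (n * Λ * t + (n * y + l))) = v (S (C t) y) l := by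
            unfold scg
            rw [if_neg e1, e2, e3, e4, e5, e6]
          dsimp only
          rw [e7, add_assoc r (n * Λ * t) (n * y + l)]
      _ = e * (T * (n * Λ)) := by rw [Finset.sum_const, Finset.card_range, nsmul_eq_mul]; ring
      _ ≤ e * (N + n * Λ) := by
          refine mul_le_mul_of_nonneg_left ?_ he0
          have h4 : N / (n * Λ) * (n * Λ) ≤ N := Nat.div_mul_le_self _ _
          have h5 : T * (n * Λ) ≤ N + n * Λ := by
            rw [hT, add_mul, one_mul]; omega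
          exact_mod_cast h5
  rw [Finset.sum_range_add] at h1
  linarith

end Pool.Agent.Helper40.FR
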