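import Pool.Agent.Helper40.FR.SCc
import Pool.Agent.Helper40.FR.NCVd

/-!
The theorem on towers, with states: end of the proof.
-/

set_option autoImplicit false

open Finset Filter

namespace Pool.Agent.Helper40.FR

universe u

open Pool.Agent.Helper40.Mob (IsState)
open Pool.Agent.Helper40.MR (cst_exists_state cst_state_one)
open Pool.Agent.Helper13.FR (BS ST_UNF)

variable {A : Type u} [CStarAlgebra A]

theorem scv_tower_mono (α : A → A) (m : ℕ → ℕ) (p : ℕ → A) (h : IsTowers α m p) (k j : ℕ) :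
    m k ∣ m (k + j) ∧ p (k + j) * p k = p (k + j) := by
  induction j with
  | zero =>
    refine ⟨dvd_refl _, ?_⟩
    exact (h.2 k).2.2.1.isIdempotentElem.eq
  | succ j ih =>
    obtain ⟨h1, h2⟩ := ih
    obtain ⟨-, h3, -, h4, -, -⟩ := h.2 (k + j)
    refine ⟨h1.trans h3, ?_⟩
    rw [← add_assoc]
    calc p (k + j + 1) * p k = p (k + j + 1) * p (k + j) * p k := by rw [h4]
      _ = p (k + j + 1) * (p (k + j) * p k) := mul_assoc _ _ _
      _ = p (k + j + 1) := by rw [h2, h4]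

/-- one state, two levels -/
theorem scv_two (α : A →⋆ₐ[ℂ] A) (u p q : A) (n Λ d : ℕ) (ε b : ℝ) (hd : 1 ≤ d) (hε : 0 ≤ ε)
    (hn : 1 ≤ n) (hΛ : 1 ≤ Λ)
    (hq1 : IsStarProjection q) (hqp : q * p = q) (hp : α^[n] p = p) (hq : α^[n * Λ] q = q)
    (hsum : ∑ i ∈ range (n * Λ), α^[i] q = 1) (hcomm : ∀ i j, Commute (α^[i] q) (α^[j] u))
    (h : FewWords α u p n ε d) (h' : FewWords α u q (n * Λ) ε d) (N : ℕ)
    (hBS : ∀ (a : ℕ) (φ G : ℕ → ℂ), (∀ x, ‖φ x‖ ≤ 1 ∧ ‖G x‖ ≤ 1) →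
      (∀ x, φ (x + n) = φ x) → (∀ x, G (x + Λ) = G x) → BS n Λ a φ G N ≤ b)
    (ρ : A →L[ℂ] ℂ) (hρ : IsState ρ) (z : ℂ) (hz : ‖z‖ = 1) :
    ‖ρ (ncvY α z u N)‖ ≤ d * d * ((‖u‖ + 1) * b) + (n * Λ * ‖u‖ + 4 * ε * (N + n * Λ)) := by
  obtain ⟨σ, S, hσ, hS, key⟩ := scv_up α u p q n Λ d ε hd hq1 hqp hp hq h h'
  set lam : ℕ → ℝ := fun r => scl ρ (α^[r] q) with hlam
  have hproj := fun r => scv_proj ρ hρ (α^[r] q) (scv_star_it α q hq1 r)
  have hl0 : ∀ r, 0 ≤ lam r := fun r => (hproj r).2.1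
  have hlsum : ∑ r ∈ range (n * Λ), lam r = 1 := by
    have h1 : ρ (∑ r ∈ range (n * Λ), α^[r] q) = 1 := by rw [hsum, cst_state_one ρ hρ]
    rw [map_sum] at h1
    have h2 : ∑ r ∈ range (n * Λ), ρ (α^[r] q) = ((∑ r ∈ range (n * Λ), lam r : ℝ) : ℂ) := by
      push_cast
      exact Finset.sum_congr rfl fun r _ => (hproj r).1
    rw [h2] at h1
    exact_mod_cast h1
  set f : ℕ → ℕ → ℂ := fun r x => ρ (α^[r] q * α^[x] u * α^[r] q) with hf
  have hfx : ∀ x, ρ (α^[x] u) = ∑ r ∈ range (n * Λ), f r x := by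
    intro x
    have h1 : α^[x] u = ∑ r ∈ range (n * Λ), α^[r] q * α^[x] u * α^[r] q := by
      calc α^[x] u = (∑ r ∈ range (n * Λ), α^[r] q) * α^[x] u := by rw [hsum, one_mul]
        _ = ∑ r ∈ range (n * Λ), α^[r] q * α^[x] u := Finset.sum_mul _ _ _
        _ = _ := by
          refine Finset.sum_congr rfl fun r _ => ?_
          have h2 := (scv_star_it α q hq1 r).isIdempotentElem.eq
          rw [mul_assoc, ← (hcomm r x).eq, ← mul_assoc, h2]
    conv_lhs => rw [h1]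
    rw [map_sum]
  have hY : ρ (ncvY α z u N) = ∑ r ∈ range (n * Λ), ∑ x ∈ Icc 1 N,
      ((ArithmeticFunction.moebius x : ℤ) : ℂ) * (z ^ x * f r x) := by
    rw [Finset.sum_comm, ncvY, map_sum]
    refine Finset.sum_congr rfl fun x _ => ?_
    rw [map_smul, smul_eq_mul, hfx, Finset.mul_sum]
    exact Finset.sum_congr rfl fun r _ => by ring
  have hterm : ∀ r ∈ range (n * Λ), ‖∑ x ∈ Icc 1 N,
      ((ArithmeticFunction.moebius x : ℤ) : ℂ) * (z ^ x * f r x)‖ ≤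
      lam r * (d * d * ((‖u‖ + 1) * b) + (n * Λ * ‖u‖ + 4 * ε * (N + n * Λ))) := by
    intro r hr
    have hrn := Finset.mem_range.1 hr
    obtain ⟨C, hC1, hC2⟩ := key ρ hρ r
    set v : ℕ → ℕ → ℂ := fun s l => σ s (α^[l] u) with hv
    have hv1 : ∀ s l, ‖v s l‖ ≤ ‖u‖ + 1 := by
      intro s l
      have h1 := (hσ s (α^[l] u)).trans (ncv_itn α l u)
      linarith
    have hsum1 := scv_sum n Λ d r N z hz (‖u‖ + 1) b (by positivity) v S C hn hS hC1 hrn hv1 hBS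
    have herr := scv_err n Λ r N (f r) (fun s l => (lam r : ℂ) * v s l) S C (lam r * ‖u‖)
      (lam r * (4 * ε)) hn hΛ hrn.le (mul_nonneg (hl0 r) (norm_nonneg _))
      (fun x => ((hproj r).2.2 _).trans (mul_le_mul_of_nonneg_left (ncv_itn _ _ _) (hl0 r)))
      (mul_nonneg (hl0 r) (by positivity)) (fun t => by
        refine (hC2 t).trans (le_of_eq ?_)
        rw [hlam]
        ring)
    have hsc : ∀ x, scg n Λ r (fun s l => (lam r : ℂ) * v s l) S C x =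
        (lam r : ℂ) * scg n Λ r v S C x := by
      intro x
      unfold scg
      split_ifs
      · rw [mul_zero]
      · rfl
    have h1 : ∑ x ∈ Icc 1 N, ((ArithmeticFunction.moebius x : ℤ) : ℂ) * (z ^ x * f r x) =
        (lam r : ℂ) * ∑ x ∈ Icc 1 N, ((ArithmeticFunction.moebius x : ℤ) : ℂ) *
          (z ^ x * scg n Λ r v S C x) +
        ∑ x ∈ Icc 1 N, ((ArithmeticFunction.moebius x : ℤ) : ℂ) * (z ^ x *
          (f r x - scg n Λ r (fun s l => (lam r : ℂ) * v s l) S C x)) := by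
      rw [Finset.mul_sum, ← Finset.sum_add_distrib]
      refine Finset.sum_congr rfl fun x _ => ?_
      rw [hsc]
      ring
    have h2 : ‖∑ x ∈ Icc 1 N, ((ArithmeticFunction.moebius x : ℤ) : ℂ) * (z ^ x *
          (f r x - scg n Λ r (fun s l => (lam r : ℂ) * v s l) S C x))‖ ≤
        n * Λ * (lam r * ‖u‖) + lam r * (4 * ε) * (N + n * Λ) := by
      refine (norm_sum_le _ _).trans (le_trans (Finset.sum_le_sum fun x _ => ?_) herr)
      rw [norm_mul, norm_mul, norm_pow, hz, one_pow, one_mul]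
      exact mul_le_of_le_one_left (norm_nonneg _) (ncv_mu x)
    have h3 : ‖(lam r : ℂ) * ∑ x ∈ Icc 1 N, ((ArithmeticFunction.moebius x : ℤ) : ℂ) *
          (z ^ x * scg n Λ r v S C x)‖ ≤ lam r * (d * d * ((‖u‖ + 1) * b)) := by
      rw [norm_mul, Complex.norm_real, Real.norm_of_nonneg (hl0 r)]
      exact mul_le_mul_of_nonneg_left hsum1 (hl0 r)
    rw [h1]
    refine (norm_add_le _ _).trans ?_
    calc _ ≤ lam r * (d * d * ((‖u‖ + 1) * b)) +
          (n * Λ * (lam r * ‖u‖) + lam r * (4 * ε) * (N + n * Λ)) := add_le_add h3 h2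
      _ = _ := by ring
  rw [hY]
  refine (norm_sum_le _ _).trans ((Finset.sum_le_sum hterm).trans (le_of_eq ?_))
  rw [← Finset.sum_mul, hlsum, one_mul]

/-- the theorem for one element -/
theorem scv_tow (hU : ST_UNF) (α : A →⋆ₐ[ℂ] A) (u : A) (hu : HasBoundedTowers α u) :
    ncvD α u := by
  intro δ hδ
  obtain ⟨m, p, hT, hcomm, hcov⟩ := hu
  obtain ⟨d₀, hd₀⟩ := hcov (δ / 64) (by positivity)
  set d := d₀ + 1 with hdd
  have hd : ∃ᶠ k : ℕ in atTop, FewWords α u (p k) (m k) (δ / 64) d :=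
    hd₀.mono fun k hk => scv_few_mono _ _ _ _ _ _ _ (Nat.le_succ _) hk
  set η : ℝ := δ / (8 * (d : ℝ) ^ 2 * (‖u‖ + 1)) with hη
  have hdpos : (0 : ℝ) < d := by rw [hdd]; positivity
  have hη0 : 0 < η := by positivity
  obtain ⟨n₀, hn₀⟩ := hU η hη0
  obtain ⟨k, ⟨hk1, hk2⟩⟩ := (hd.and_eventually (hT.1.eventually_ge_atTop n₀)).exists
  obtain ⟨Λ₀, hΛ₀⟩ := hn₀ (m k) hk2
  obtain ⟨k', ⟨hk'1, hk'2, hk'3⟩⟩ := (hd.and_eventually
    ((hT.1.eventually_ge_atTop (m k * Λ₀)).and (eventually_ge_atTop k))).exists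
  obtain ⟨j, rfl⟩ := Nat.exists_eq_add_of_le hk'3
  obtain ⟨hdvd, hqp⟩ := scv_tower_mono α m p hT k j
  obtain ⟨Λ, hΛ⟩ := hdvd
  have hn1 := (hT.2 k).1
  have hm1 := (hT.2 (k + j)).1
  have hΛ1 : 1 ≤ Λ := by
    rcases Nat.eq_zero_or_pos Λ with h | h
    · rw [h, mul_zero] at hΛ; omega
    · exact h
  have hΛ2 : Λ₀ ≤ Λ := by
    rw [hΛ] at hk'2
    exact Nat.le_of_mul_le_mul_left hk'2 hn1
  obtain ⟨N₁, hN₁⟩ := hΛ₀ Λ hΛ2
  obtain ⟨N₂, hN₂⟩ := exists_nat_ge ((m k : ℝ) * Λ * (‖u‖ + 1) / (δ / 32))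
  obtain ⟨N₃, hN₃⟩ := exists_nat_ge ((m k : ℝ) * Λ)
  refine ⟨max N₁ (max N₂ N₃), fun N hN z hz => ?_⟩
  have hN1 : N₁ ≤ N := (le_max_left _ _).trans hN
  have hN2 : (m k : ℝ) * Λ * (‖u‖ + 1) ≤ δ / 32 * N := by
    rw [div_le_iff₀ (by positivity)] at hN₂
    have h1 : (N₂ : ℝ) ≤ N := by
      exact_mod_cast ((le_max_left _ _).trans (le_max_right _ _)).trans hN
    nlinarith
  have hN3 : (m k : ℝ) * Λ ≤ N := by
    have h1 : (N₃ : ℝ) ≤ N := by
      exact_mod_cast ((le_max_right _ _).trans (le_max_right _ _)).trans hN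
    linarith
  have hst : ∀ ρ : A →L[ℂ] ℂ, IsState ρ → ‖ρ (ncvY α z u N)‖ ≤ δ / 2 * N := by
    intro ρ hρ
    have h1 := scv_two α u (p k) (p (k + j)) (m k) Λ d (δ / 64) (η * N) (by omega)
      (by positivity) hn1 hΛ1 (hT.2 (k + j)).2.2.1 hqp (hT.2 k).2.2.2.2.1
      (by rw [← hΛ]; exact (hT.2 (k + j)).2.2.2.2.1) (by rw [← hΛ]; exact (hT.2 (k + j)).2.2.2.2.2)
      (fun i j' => hcomm _ _ _) hk1 (by rw [← hΛ]; exact hk'1) N
      (fun a φ G h1 h2 h3 => hN₁ N a φ G hN1 h1 h2 h3) ρ hρ z hz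
    have h2 : (d : ℝ) * d * ((‖u‖ + 1) * (η * N)) = δ / 8 * N := by
      rw [hη]
      field_simp
    have h3 : (m k : ℝ) * Λ * ‖u‖ ≤ δ / 32 * N := by
      have h4 : (m k : ℝ) * Λ * ‖u‖ ≤ (m k : ℝ) * Λ * (‖u‖ + 1) :=
        mul_le_mul_of_nonneg_left (by linarith) (by positivity)
      linarith
    have h5 : 4 * (δ / 64) * ((N : ℝ) + m k * Λ) ≤ 4 * (δ / 64) * (2 * N) :=
      mul_le_mul_of_nonneg_left (by linarith) (by positivity)
    have h6 : (0 : ℝ) ≤ δ * N := by positivity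
    rw [h2] at h1
    linarith
  rcases subsingleton_or_nontrivial A with hA | hA
  · rw [Subsingleton.elim (ncvY α z u N) 0, norm_zero]
    positivity
  · obtain ⟨ρ, hρ, h1⟩ := cst_exists_state (ncvY α z u N)
    have h2 := hst ρ hρ
    linarith

end Pool.Agent.Helper40.FR
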