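import Mathlib
import Pool.Agent.Helper40.MobDefs

/-!
Towers of projections and orbit segments seen by states: definitions used in the statement.
-/

open Filter

namespace Pool.Agent.Helper40.FR

universe u

open Pool.Agent.Helper40.Mob (IsState)

/-- the projections `p k` are the bases of refining periodic towers of heights `m k` for `α`:
`m k` divides `m (k + 1)`, `m k → ∞`, `p (k + 1) ≤ p k`, `α^(m k) (p k) = p k` and the sum of the
`α^i (p k)`, `i < m k`, is one -/
def IsTowers {A : Type u} [CStarAlgebra A] (α : A → A) (m : ℕ → ℕ) (p : ℕ → A) : Prop :=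
  Tendsto m atTop atTop ∧ ∀ k, 1 ≤ m k ∧ m k ∣ m (k + 1) ∧ IsStarProjection (p k) ∧
    p (k + 1) * p k = p (k + 1) ∧ α^[m k] (p k) = p k ∧
    ∑ i ∈ Finset.range (m k), α^[i] (p k) = 1

/-- the orbit segments `(ρ u, ρ (α u), …, ρ (α^(m-1) u))` of the states `ρ` with `ρ p = 1` are
contained in `d` balls of radius `ε` for the mean metric on `ℂ^m` -/
def FewWords {A : Type u} [CStarAlgebra A] (α : A → A) (u p : A) (m : ℕ) (ε : ℝ) (d : ℕ) : Prop :=
  ∃ w : ℕ → ℕ → ℂ, ∀ ρ : A →L[ℂ] ℂ, IsState ρ → ρ p = 1 →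
    ∃ s < d, ∑ i ∈ Finset.range m, ‖ρ (α^[i] u) - w s i‖ ≤ ε * m

/-- `u` has towers which commute with the orbit of `u`, such that for every `ε > 0` there is a
`d` such that for infinitely many `k` the states of the base `p k` see at most `d` orbit segments of
length `m k`, up to `ε` in the mean -/
def HasBoundedTowers {A : Type u} [CStarAlgebra A] (α : A → A) (u : A) : Prop :=
  ∃ (m : ℕ → ℕ) (p : ℕ → A), IsTowers α m p ∧ (∀ k i j, Commute (α^[i] (p k)) (α^[j] u)) ∧
    ∀ ε : ℝ, 0 < ε → ∃ d : ℕ, ∃ᶠ k : ℕ in atTop, FewWords α u (p k) (m k) ε d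

end Pool.Agent.Helper40.FR
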